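import Pool.Agent.Helper29.Arb.Ind
import Pool.Agent.Helper49.AL.Close

/-!
# From Laurent polynomials to coefficients; the theorem on algebraic positive diagrams
-/

set_option autoImplicit false

set_option linter.unusedSectionVars false

namespace Pool.Agent.Helper29.Arb

open Polynomial LaurentPolynomial Pool.Agent.Helper2.Arb

/-- The coefficient of `z ^ j`, for an integer `j` (zero for `j < 0`). -/
def cz (p : ℤ[X]) (j : ℤ) : ℤ := if 0 ≤ j then p.coeff j.toNat else 0

/-- The coefficient of `τ ^ (t / 2)`, zero if `t` is odd or negative. -/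
def cq (q : ℚ[X]) (t : ℤ) : ℚ := if 0 ≤ t ∧ t % 2 = 0 then q.coeff (t / 2).toNat else 0

theorem coeff_C_mul_T' (a : ℚ) (n j : ℤ) : (LaurentPolynomial.C a * T n : ℚ[T;T⁻¹]).coeff j = if n = j then a else 0 := by
  rw [← LaurentPolynomial.single_eq_C_mul_T, AddMonoidAlgebra.coeff_single, Finsupp.single_apply]

theorem coeff_lp (p : ℤ[X]) (j : ℤ) : (lp p).coeff j = cz p j := by
  unfold lp
  induction p using Polynomial.induction_on' with
  | add p q hp hq =>
    rw [Polynomial.map_add, map_add, AddMonoidAlgebra.coeff_add, Finsupp.add_apply, hp, hq]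
    unfold cz
    split_ifs
    · rw [Polynomial.coeff_add]
      push_cast
      ring
    · simp
  | monomial n a =>
    rw [Polynomial.map_monomial, Polynomial.toLaurent_C_mul_T, coeff_C_mul_T']
    unfold cz
    by_cases h : (n : ℤ) = j
    · subst h
      simp
    · rw [if_neg h]
      split_ifs with h1
      · have h2 : n ≠ j.toNat := by omega
        rw [Polynomial.coeff_monomial, if_neg h2]
        simp
      · simp

theorem coeff_T_ev (m : ℤ) (q : ℚ[X]) (j : ℤ) : (T m * ev q : ℚ[T;T⁻¹]).coeff j = cq q (m - j) := by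
  induction q using Polynomial.induction_on' with
  | add p q hp hq =>
    rw [map_add, mul_add, AddMonoidAlgebra.coeff_add, Finsupp.add_apply, hp, hq]
    unfold cq
    split_ifs
    · rw [Polynomial.coeff_add]
    · simp
  | monomial n a =>
    have h1 : T m * ev (monomial n a) = LaurentPolynomial.C a * T (m + (-2) * n) := by
      unfold ev
      rw [Polynomial.coe_eval₂RingHom, Polynomial.eval₂_monomial, T_pow, T_add]
      rw [show ((n : ℤ) * (-2)) = (-2) * (n : ℤ) by ring]
      ring
    rw [h1, coeff_C_mul_T']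
    unfold cq
    by_cases h : m + (-2) * (n : ℤ) = j
    · rw [if_pos h]
      have h2 : m - j = 2 * (n : ℤ) := by omega
      rw [h2, if_pos ⟨by omega, by omega⟩]
      have h3 : (2 * (n : ℤ) / 2).toNat = n := by omega
      rw [h3, Polynomial.coeff_monomial, if_pos rfl]
    · rw [if_neg h]
      split_ifs with h2
      · have h3 : n ≠ ((m - j) / 2).toNat := by omega
        rw [Polynomial.coeff_monomial, if_neg h3]
      · rfl

/-- What a log-concave value means for the coefficients. -/
theorem coeffs_of_value {p : ℤ[X]} {m : ℤ} {q : ℚ[X]} (h : lp p = T m * ev q) (hn : Nn q)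
    (h0 : q ≠ 0) (hl : Lc q) :
    p ≠ 0 ∧ (∀ j, 0 ≤ p.coeff j) ∧ (∀ i j, p.coeff i ≠ 0 → p.coeff j ≠ 0 → i % 2 = j % 2) ∧
      (∀ i j k, i ≤ j → j ≤ k → i % 2 = j % 2 → p.coeff i ≠ 0 → p.coeff k ≠ 0 → p.coeff j ≠ 0) ∧
      ∀ j : ℤ, cz p (j + 2) * cz p (j - 2) ≤ cz p j ^ 2 := by
  have hc : ∀ j : ℤ, ((cz p j : ℤ) : ℚ) = cq q (m - j) := fun j => by
    rw [← coeff_lp, h, coeff_T_ev]
  have hcn : ∀ j : ℕ, ((p.coeff j : ℤ) : ℚ) = cq q (m - j) := fun j => by
    rw [← hc]
    unfold cz
    rw [if_pos (by omega)]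
    simp
  have hcq : ∀ t, 0 ≤ cq q t := fun t => by
    unfold cq
    split_ifs
    · exact hn _
    · exact le_rfl
  have lc : ∀ a b : ℕ, a < b → q.coeff (b + 1) * q.coeff a ≤ q.coeff (a + 1) * q.coeff b := by
    intro a b hab
    have h1 := hl (a + 1) (b + 1) (by omega)
    rw [Polynomial.coeff_X_mul, Polynomial.coeff_X_mul] at h1
    exact h1
  refine ⟨?_, ?_, ?_, ?_, ?_⟩
  · rintro rfl
    obtain ⟨k, hk⟩ : ∃ k, q.coeff k ≠ 0 := by
      by_contra h1
      push Not at h1
      exact h0 (Polynomial.ext h1)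
    have h1 := hc (m - 2 * k)
    unfold cz cq at h1
    rw [show m - (m - 2 * (k : ℤ)) = 2 * (k : ℤ) by ring, if_pos (show 0 ≤ 2 * (k : ℤ) ∧ 2 * (k : ℤ) % 2 = 0 by omega)] at h1
    have h2 : (2 * (k : ℤ) / 2).toNat = k := by omega
    rw [h2] at h1
    apply hk
    rw [← h1]
    simp
  · intro j
    have h1 := hcn j
    have h2 := hcq (m - j)
    rw [← h1] at h2
    exact_mod_cast h2
  · intro i j hi hj
    have h1 := hcn i
    have h2 := hcn j
    unfold cq at h1 h2
    split_ifs at h1 with h3
    · split_ifs at h2 with h4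
      · omega
      · exact absurd (by exact_mod_cast h2) hj
    · exact absurd (by exact_mod_cast h1) hi
  · intro i j k hij hjk hpar hi hk hj
    have h1 := hcn i
    have h2 := hcn j
    have h3 := hcn k
    rw [hj] at h2
    unfold cq at h1 h2 h3
    split_ifs at h1 with g1
    swap
    · exact hi (by exact_mod_cast h1)
    split_ifs at h3 with g3
    swap
    · exact hk (by exact_mod_cast h3)
    rw [if_pos (by omega)] at h2
    rcases hij.lt_or_eq with hij | rfl
    swap
    · exact hi hj
    rcases hjk.lt_or_eq with hjk | rfl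
    swap
    · exact hk hj
    -- a = index of k, c = index of j, b = index of i
    set a := ((m - k) / 2).toNat with ha
    set c := ((m - j) / 2).toNat with hc'
    set b := ((m - i) / 2).toNat with hb
    have hac : a < c := by omega
    have hcb : c < b := by omega
    have hqa : q.coeff a ≠ 0 := by
      rw [← h3]
      exact_mod_cast hk
    have hqb : q.coeff b ≠ 0 := by
      rw [← h1]
      exact_mod_cast hi
    have hqc : q.coeff c = 0 := by
      rw [← h2]
      simp
    -- q (a) and q (b) positive, q (c) = 0, contradiction with log-concavity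
    have hpos : ∀ n, q.coeff n ≠ 0 → 0 < q.coeff n := fun n h => lt_of_le_of_ne (hn n) (Ne.symm h)
    -- all coefficients from c on vanish
    have key : ∀ n, c ≤ n → q.coeff n = 0 := by
      intro n hcn'
      induction n, hcn' using Nat.le_induction with
      | base => exact hqc
      | succ n hn' ih =>
        have h5 := lc a n (by omega)
        rw [ih, mul_zero] at h5
        have h6 := hpos a hqa
        have h7 := hn (n + 1)
        by_contra h8
        have h9 := hpos _ h8
        have h10 := mul_pos h9 h6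
        linarith
    exact hqb (key b hcb.le)
  · intro j
    have h1 := hc (j + 2)
    have h2 := hc (j - 2)
    have h3 := hc j
    have h4 : ((cz p (j + 2) * cz p (j - 2) : ℤ) : ℚ) ≤ ((cz p j ^ 2 : ℤ) : ℚ) := by
      push_cast
      rw [h1, h2, h3]
      unfold cq
      by_cases g : 0 ≤ m - (j + 2) ∧ (m - (j + 2)) % 2 = 0
      · rw [if_pos g, if_pos (by omega), if_pos (by omega)]
        obtain ⟨k, hk⟩ : ∃ k : ℕ, m - (j + 2) = 2 * k := ⟨((m - (j + 2)) / 2).toNat, by omega⟩
        have e1 : ((m - (j + 2)) / 2).toNat = k := by omega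
        have e2 : ((m - (j - 2)) / 2).toNat = k + 2 := by omega
        have e3 : ((m - j) / 2).toNat = k + 1 := by omega
        rw [e1, e2, e3]
        have h5 := lc k (k + 1) (by omega)
        nlinarith
      · rw [if_neg g, zero_mul]
        positivity
    exact_mod_cast h4

section

variable {P : Type} [Fintype P] [DecidableEq P] {G : Shadow P}

/-- Log-concavity for algebraic positive diagrams. -/
theorem main (hG : G.Algebraic) {nab : Diag G → ℤ[X]} (h : IsConway nab) :
    nab (allPos G) ≠ 0 ∧ (∀ j, 0 ≤ (nab (allPos G)).coeff j) ∧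
      (∀ i j, (nab (allPos G)).coeff i ≠ 0 → (nab (allPos G)).coeff j ≠ 0 → i % 2 = j % 2) ∧
      (∀ i j k, i ≤ j → j ≤ k → i % 2 = j % 2 → (nab (allPos G)).coeff i ≠ 0 →
        (nab (allPos G)).coeff k ≠ 0 → (nab (allPos G)).coeff j ≠ 0) ∧
      ∀ j : ℤ, cz (nab (allPos G)) (j + 2) * cz (nab (allPos G)) (j - 2) ≤ cz (nab (allPos G)) j ^ 2 := by
  obtain ⟨x, y, e, f, ht, h1, h2, m, q, hn, h0, hl, hq⟩ := closure_of_algebraic hG
  rw [← Pool.Agent.Helper49.AL.nab_eq_W h ht.ne h1 h2] at hq
  exact coeffs_of_value hq hn h0 hl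

end

end Pool.Agent.Helper29.Arb
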