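import Mathlib

/-!
# MP_ea8a26_gt, arborescent (Conway algebraic) positive diagrams. Definitions

A link shadow: a finite set `P` of passages, the permutation `nxt` (the next passage along the link), the involution `op` (the other passage of the same crossing) and
`lf i`: at the passage `i` the other strand crosses from the left to the right. A diagram on the shadow is given by the status of every crossing: positive, negative or
smoothed (in the oriented way). This is the format of `Pool.Agent.Helper76.PK` with an arbitrary permutation `nxt`, so that the link may have several components.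

The half-edge `(i, true)` leaves the passage `i`, the half-edge `(i, false)` enters it; `mate` is the other half of the same edge.
-/

set_option autoImplicit false

namespace Pool.Agent.Helper29.Arb

open Polynomial

/-- An oriented link shadow (without components free of crossings), on a closed oriented surface. -/
structure Shadow (P : Type) where
  nxt : Equiv.Perm P
  op : P → P
  op_op : ∀ i, op (op i) = i
  op_ne : ∀ i, op i ≠ i
  lf : P → Bool
  lf_op : ∀ i, lf (op i) = !lf i

namespace Shadow

variable {P : Type} (G : Shadow P)

/-- The other half of the edge of a half-edge. -/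
def mate (h : P × Bool) : P × Bool :=
  if h.2 then (G.nxt h.1, false) else (G.nxt.symm h.1, true)

/-- `G.Alg A h₁ h₂ h₃ h₄`: the crossings of the passages in `A` form an algebraic tangle (in a disk) with the four ends `h₁, h₂, h₃, h₄` in the counterclockwise order
(north west, south west, south east, north east). Algebraic tangles are obtained from single crossings by rotations and by sums: in a sum the two eastern ends of the
first tangle are joined to the two western ends of the second one. -/
inductive Alg [DecidableEq P] : Finset P → P × Bool → P × Bool → P × Bool → P × Bool → Prop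
  | crossing (i : P) (h : G.lf i = true) : Alg {i, G.op i} (i, true) (G.op i, false) (i, false) (G.op i, true)
  | rot {A : Finset P} {h₁ h₂ h₃ h₄ : P × Bool} (h : Alg A h₁ h₂ h₃ h₄) : Alg A h₂ h₃ h₄ h₁
  | sum {A B : Finset P} {a₁ a₂ a₃ a₄ b₁ b₂ b₃ b₄ : P × Bool} (hA : Alg A a₁ a₂ a₃ a₄)
      (hB : Alg B b₁ b₂ b₃ b₄) (hAB : Disjoint A B) (h₁ : G.mate a₄ = b₁) (h₂ : G.mate a₃ = b₂) :
      Alg (A ∪ B) a₁ a₂ b₃ b₄

/-- The shadow is algebraic (arborescent): it is the numerator closure of an algebraic tangle. -/
def Algebraic [Fintype P] [DecidableEq P] : Prop :=
  ∃ h₁ h₂ h₃ h₄, G.Alg Finset.univ h₁ h₂ h₃ h₄ ∧ G.mate h₁ = h₄ ∧ G.mate h₂ = h₃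

end Shadow

/-- The status of a crossing. -/
inductive St
  | pos
  | neg
  | smooth
  deriving DecidableEq

/-- A diagram on the shadow `G`. -/
@[ext] structure Diag {P : Type} (G : Shadow P) where
  st : P → St
  st_op : ∀ i, st (G.op i) = st i

namespace Diag

variable {P : Type} [DecidableEq P] {G : Shadow P}

/-- The passage `i` is an over passage. At a positive crossing the under strand crosses the over strand from the right to the left. -/
def ovr (D : Diag G) (i : P) : Bool :=
  match D.st i with
  | .pos => !G.lf i
  | .neg => G.lf i
  | .smooth => false

/-- The passage at which one arrives after the passage `i`, travelling along the smoothed diagram. -/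
def tr (D : Diag G) (i : P) : P := G.nxt (if D.st i = .smooth then G.op i else i)

/-- Change the status of the crossing of `i` to `t`. -/
def upd (D : Diag G) (i : P) (t : St) : Diag G where
  st j := if j = i ∨ j = G.op i then t else D.st j
  st_op j := by
    have h1 : (G.op j = i ∨ G.op j = G.op i) ↔ (j = i ∨ j = G.op i) := by
      constructor
      · rintro (h | h)
        · right; rw [← h, G.op_op]
        · left; rw [← G.op_op j, h, G.op_op]
      · rintro (h | h)
        · right; rw [h]
        · left; rw [h, G.op_op]
    simp only [h1, D.st_op]

/-- Smooth the crossings of the passages in `S`. -/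
def sm (D : Diag G) (S : Finset P) : Diag G where
  st j := if j ∈ S ∨ G.op j ∈ S then .smooth else D.st j
  st_op j := by
    have h1 : (G.op j ∈ S ∨ G.op (G.op j) ∈ S) ↔ (j ∈ S ∨ G.op j ∈ S) := by
      rw [G.op_op, or_comm]
    simp only [h1, D.st_op]

end Diag

/-- The diagram all of whose crossings are positive. -/
def allPos {P : Type} (G : Shadow P) : Diag G := ⟨fun _ => .pos, fun _ => rfl⟩

/-- The properties of the Conway polynomial of the diagrams on `G` which are used: the skein relation, the value `1` of a knot diagram which is descending
from some point of the knot, and the value `0` of a diagram in which a sublink (with the passages `C`) lies above the rest of the link. -/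
structure IsConway {P : Type} [Fintype P] [DecidableEq P] {G : Shadow P} (nab : Diag G → ℤ[X]) : Prop where
  skein : ∀ (D : Diag G) (i : P), nab (D.upd i .pos) - nab (D.upd i .neg) = X * nab (D.upd i .smooth)
  knot : ∀ (D : Diag G) (b : P), (∀ i, ∃ k : ℕ, D.tr^[k] b = i) →
    (∀ k : ℕ, D.st (D.tr^[k] b) ≠ .smooth → (∀ l ≤ k, D.tr^[l] b ≠ G.op (D.tr^[k] b)) →
      D.ovr (D.tr^[k] b) = true) → nab D = 1
  split : ∀ (D : Diag G) (C : Finset P), C.Nonempty → C ≠ Finset.univ → (∀ i, D.tr i ∈ C ↔ i ∈ C) →
    (∀ i ∈ C, G.op i ∉ C → D.st i ≠ .smooth → D.ovr i = true) → nab D = 0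

/-- The crossings, given by their under passages (in the positive diagram). -/
def und {P : Type} [Fintype P] (G : Shadow P) : Finset P := Finset.univ.filter fun i => G.lf i = true

/-- `S` is an ascending one-component state for the travel from `b`. -/
def Asc {P : Type} [DecidableEq P] {G : Shadow P} (D : Diag G) (b : P) (S : Finset P) : Prop :=
  (∀ i, ∃ k : ℕ, (D.sm S).tr^[k] b = i) ∧
    ∀ i ∈ S, ∀ k : ℕ, (D.sm S).tr^[k] b = G.op i → ∃ l < k, (D.sm S).tr^[l] b = i

/-! ### Segments and the weights of a tangle -/

section Seg

variable {P : Type} [DecidableEq P] (G : Shadow P)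

/-- The half-edge by which one leaves the crossing of the passage `i`, when the crossings of the passages in `S` are smoothed. -/
def ex (S : Finset P) (i : P) : P := if i ∈ S ∨ G.op i ∈ S then G.op i else i

/-- `Seg G S x l e`: travelling in the state `S` from the passage `x` one meets the passages of the list `l` and leaves the last one of them by `e`. -/
inductive Seg (S : Finset P) : P → List P → P → Prop
  | one (x : P) : Seg S x [x] (ex G S x)
  | cons (x : P) {l : List P} {e : P} (h : Seg S (G.nxt (ex G S x)) l e) : Seg S x (x :: l) e

/-- The list is ascending: the lower passage of every smoothed crossing comes before the upper one. -/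
def AscL (S : Finset P) (l : List P) : Prop := ∀ i ∈ S, [i, G.op i].Sublist l

/-- In the state `S` the tangle `A` consists of two strands, from `x` to `e` and from `y` to `f`, which cover `A`, and the first strand followed by the second one is
ascending. -/
def Two (A : Finset P) (x y e f : P) (S : Finset P) : Prop :=
  ∃ l m : List P, Seg G S x l e ∧ Seg G S y m f ∧ (l ++ m).Nodup ∧ (∀ p, p ∈ l ++ m ↔ p ∈ A) ∧ AscL G S (l ++ m)

open Classical in
/-- The weight of the tangle `A`: the first strand goes from `x` to `e`, the second one from `y` to `f`. -/
noncomputable def W [Fintype P] (A : Finset P) (x y e f : P) : ℤ[X] :=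
  ∑ S ∈ (und G ∩ A).powerset.filter (fun S => Two G A x y e f S), X ^ S.card

/-- The facts about a tangle with the passages `A` which enters at `x`, `y` and leaves at `e`, `f` which are needed for the gluing: `A` consists of crossings, and in every state
there are two disjoint strands (which may not cover `A`) from `x`, `y` to `e`, `f`. -/
structure IsTangle (A : Finset P) (x y e f : P) : Prop where
  op_mem : ∀ i ∈ A, G.op i ∈ A
  ne : e ≠ f
  strands : ∀ S ⊆ A, ∃ l m : List P, (l ++ m).Nodup ∧ (∀ p ∈ l ++ m, p ∈ A) ∧
    (Seg G S x l e ∧ Seg G S y m f ∨ Seg G S x l f ∧ Seg G S y m e)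

end Seg

end Pool.Agent.Helper29.Arb
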