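import Mathlib

/-!
# Sequences: likelihood ratio order, convolution and Efron's monotonicity
-/

set_option autoImplicit false

namespace Pool.Agent.Helper29.Arb

open Finset

/-- convolution -/
def conv (f g : ℕ → ℝ) (n : ℕ) : ℝ := ∑ p ∈ antidiagonal n, f p.1 * g p.2

/-- `g / f` is increasing -/
def LR (f g : ℕ → ℝ) : Prop := ∀ i j, i < j → f j * g i ≤ f i * g j

/-- log-concave without internal zeros -/
def PF2 (h : ℕ → ℝ) : Prop := ∀ i j k, i ≤ j → h i * h (j + k) ≤ h (i + k) * h j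

/-- extension by zero -/
def ex (h : ℕ → ℝ) (n : ℤ) : ℝ := if 0 ≤ n then h n.toNat else 0

theorem ex_neg {h : ℕ → ℝ} {n : ℤ} (hn : n < 0) : ex h n = 0 := by
  unfold ex
  rw [if_neg (by omega)]

theorem ex_sub {h : ℕ → ℝ} {n a : ℕ} (hn : a ≤ n) : ex h ((n : ℤ) - a) = h (n - a) := by
  unfold ex
  rw [if_pos (by omega)]
  congr 1
  omega

theorem ex_nonneg {h : ℕ → ℝ} (h0 : ∀ i, 0 ≤ h i) (n : ℤ) : 0 ≤ ex h n := by
  unfold ex
  split_ifs
  · exact h0 _
  · exact le_rfl

theorem ex_pf2 {h : ℕ → ℝ} (h0 : ∀ i, 0 ≤ h i) (hp : PF2 h) {p q k : ℤ} (hpq : p ≤ q)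
    (hk : 0 ≤ k) : ex h p * ex h (q + k) ≤ ex h (p + k) * ex h q := by
  by_cases hp0 : 0 ≤ p
  · unfold ex
    rw [if_pos hp0, if_pos (by omega), if_pos (by omega), if_pos (by omega)]
    have := hp p.toNat q.toNat k.toNat (by omega)
    have e1 : (q + k).toNat = q.toNat + k.toNat := by omega
    have e2 : (p + k).toNat = p.toNat + k.toNat := by omega
    rw [e1, e2]
    exact this
  · rw [ex_neg (by omega : p < 0), zero_mul]
    exact mul_nonneg (ex_nonneg h0 _) (ex_nonneg h0 _)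

theorem conv_eq (f h : ℕ → ℝ) {n M : ℕ} (hn : n < M) :
    conv f h n = ∑ a ∈ range M, f a * ex h ((n : ℤ) - a) := by
  unfold conv
  rw [Finset.Nat.sum_antidiagonal_eq_sum_range_succ (fun a b => f a * h b) n]
  rw [← Finset.sum_subset (s₁ := range (n + 1)) (s₂ := range M)]
  · refine Finset.sum_congr rfl fun a ha => ?_
    rw [ex_sub (by rw [mem_range] at ha; omega)]
  · intro a ha
    rw [mem_range] at ha ⊢
    omega
  · intro a _ ha
    rw [mem_range] at ha
    rw [ex_neg (by omega), mul_zero]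

theorem conv_nonneg {f g : ℕ → ℝ} (hf : ∀ i, 0 ≤ f i) (hg : ∀ i, 0 ≤ g i) (n : ℕ) :
    0 ≤ conv f g n := Finset.sum_nonneg fun _ _ => mul_nonneg (hf _) (hg _)

theorem conv_comm (f g : ℕ → ℝ) (n : ℕ) : conv f g n = conv g f n := by
  unfold conv
  rw [← Finset.Nat.sum_antidiagonal_swap]
  exact Finset.sum_congr rfl fun p _ => mul_comm _ _

theorem conv_mono {f g g' : ℕ → ℝ} (hf : ∀ i, 0 ≤ f i) (hg : ∀ i, g i ≤ g' i) (n : ℕ) :
    conv f g n ≤ conv f g' n :=
  Finset.sum_le_sum fun _ _ => mul_le_mul_of_nonneg_left (hg _) (hf _)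

/-- the 2 x 2 Cauchy-Binet formula -/
theorem LR.conv_right {f g h : ℕ → ℝ} (hfg : LR f g) (h0 : ∀ i, 0 ≤ h i) (hp : PF2 h) :
    LR (conv f h) (conv g h) := by
  intro i j hij
  have hM : i < j + 1 := by omega
  rw [conv_eq f h (Nat.lt_succ_self j), conv_eq g h hM, conv_eq f h hM,
    conv_eq g h (Nat.lt_succ_self j)]
  set r := range (j + 1)
  have key : 0 ≤ 2 * ((∑ a ∈ r, f a * ex h ((i : ℤ) - a)) * (∑ b ∈ r, g b * ex h ((j : ℤ) - b)) -
      (∑ a ∈ r, f a * ex h ((j : ℤ) - a)) * (∑ b ∈ r, g b * ex h ((i : ℤ) - b))) := by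
    have e1 : (∑ a ∈ r, f a * ex h ((i : ℤ) - a)) * (∑ b ∈ r, g b * ex h ((j : ℤ) - b)) -
      (∑ a ∈ r, f a * ex h ((j : ℤ) - a)) * (∑ b ∈ r, g b * ex h ((i : ℤ) - b)) =
      ∑ a ∈ r, ∑ b ∈ r, f a * g b * (ex h ((i : ℤ) - a) * ex h ((j : ℤ) - b) -
        ex h ((j : ℤ) - a) * ex h ((i : ℤ) - b)) := by
      rw [Finset.sum_mul_sum, Finset.sum_mul_sum, ← Finset.sum_sub_distrib]
      refine Finset.sum_congr rfl fun a _ => ?_
      rw [← Finset.sum_sub_distrib]
      exact Finset.sum_congr rfl fun b _ => by ring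
    have e2 : ∑ a ∈ r, ∑ b ∈ r, f a * g b * (ex h ((i : ℤ) - a) * ex h ((j : ℤ) - b) -
        ex h ((j : ℤ) - a) * ex h ((i : ℤ) - b)) =
        ∑ a ∈ r, ∑ b ∈ r, f b * g a * (ex h ((i : ℤ) - b) * ex h ((j : ℤ) - a) -
        ex h ((j : ℤ) - b) * ex h ((i : ℤ) - a)) := Finset.sum_comm
    have e3 : 2 * ∑ a ∈ r, ∑ b ∈ r, f a * g b * (ex h ((i : ℤ) - a) * ex h ((j : ℤ) - b) -
        ex h ((j : ℤ) - a) * ex h ((i : ℤ) - b)) = ∑ a ∈ r, ∑ b ∈ r, (f a * g b - f b * g a) *
        (ex h ((i : ℤ) - a) * ex h ((j : ℤ) - b) - ex h ((j : ℤ) - a) * ex h ((i : ℤ) - b)) := by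
      rw [two_mul]
      nth_rewrite 2 [e2]
      rw [← Finset.sum_add_distrib]
      refine Finset.sum_congr rfl fun a _ => ?_
      rw [← Finset.sum_add_distrib]
      exact Finset.sum_congr rfl fun b _ => by ring
    rw [e1, e3]
    refine Finset.sum_nonneg fun a _ => Finset.sum_nonneg fun b _ => ?_
    rcases lt_trichotomy a b with hab | hab | hab
    · refine mul_nonneg (by linarith [hfg a b hab]) ?_
      have := ex_pf2 h0 hp (p := (i : ℤ) - b) (q := (i : ℤ) - a) (k := (j : ℤ) - i)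
        (by omega) (by omega)
      rw [show (i : ℤ) - a + ((j : ℤ) - i) = (j : ℤ) - a by ring,
        show (i : ℤ) - b + ((j : ℤ) - i) = (j : ℤ) - b by ring] at this
      linarith
    · subst hab
      rw [sub_self, zero_mul]
    · refine mul_nonneg_of_nonpos_of_nonpos (by linarith [hfg b a hab]) ?_
      have := ex_pf2 h0 hp (p := (i : ℤ) - a) (q := (i : ℤ) - b) (k := (j : ℤ) - i)
        (by omega) (by omega)
      rw [show (i : ℤ) - b + ((j : ℤ) - i) = (j : ℤ) - b by ring,
        show (i : ℤ) - a + ((j : ℤ) - i) = (j : ℤ) - a by ring] at this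
      linarith
  linarith

theorem LR.conv_left {f g h : ℕ → ℝ} (hfg : LR f g) (h0 : ∀ i, 0 ≤ h i) (hp : PF2 h) :
    LR (conv h f) (conv h g) := by
  intro i j hij
  rw [conv_comm h f, conv_comm h g, conv_comm h f, conv_comm h g]
  exact hfg.conv_right h0 hp i j hij

/-- transitivity, if the support of the last sequence lies in the support of the middle one -/
theorem LR.trans' {f g h : ℕ → ℝ} (hf : ∀ i, 0 ≤ f i) (hg : ∀ i, 0 ≤ g i) (hh : ∀ i, 0 ≤ h i)
    (hfg : LR f g) (hgh : LR g h) (hs : ∀ i, g i = 0 → h i = 0) : LR f h := by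
  intro i j hij
  rcases (hg i).eq_or_lt with e | e
  · rw [hs i e.symm, mul_zero]
    exact mul_nonneg (hf _) (hh _)
  rcases (hg j).eq_or_lt with e' | e'
  · have h1 := hfg i j hij
    rw [← e', mul_zero] at h1
    have h2 : f j = 0 := by
      by_contra hne
      have : 0 < f j := lt_of_le_of_ne (hf j) (Ne.symm hne)
      nlinarith [mul_pos this e]
    rw [h2, zero_mul]
    exact mul_nonneg (hf _) (hh _)
  · have h1 := hfg i j hij
    have h2 := hgh i j hij
    have h3 : f j * g i * (g j * h i) ≤ f i * g j * (g i * h j) :=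
      mul_le_mul h1 h2 (mul_nonneg (hg _) (hh _)) (mul_nonneg (hf _) (hg _))
    have h4 : 0 < g i * g j := mul_pos e e'
    have h5 : g i * g j * (f j * h i) ≤ g i * g j * (f i * h j) := by nlinarith
    exact le_of_mul_le_mul_left h5 h4

theorem LR.sum {f : ℕ → ℝ} {ι : Type*} (s : Finset ι) (c : ι → ℝ) (g : ι → ℕ → ℝ)
    (hc : ∀ k ∈ s, 0 ≤ c k) (hg : ∀ k ∈ s, LR f (g k)) :
    LR f (fun n => ∑ k ∈ s, c k * g k n) := by
  intro i j hij
  simp only
  rw [Finset.mul_sum, Finset.mul_sum]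
  refine Finset.sum_le_sum fun k hk => ?_
  have := mul_le_mul_of_nonneg_left (hg k hk i j hij) (hc k hk)
  linarith

theorem LR.congr_below {f g g' : ℕ → ℝ} (n : ℕ) (h : ∀ i, i ≤ n → g i = g' i)
    (hfg : LR f g) : ∀ i j, i < j → j ≤ n → f j * g' i ≤ f i * g' j := by
  intro i j hij hj
  rw [← h i (by omega), ← h j hj]
  exact hfg i j hij

/-- truncation from below -/
def cut (t : ℕ) (f : ℕ → ℝ) (i : ℕ) : ℝ := if t ≤ i then f i else 0

theorem cut_nonneg {f : ℕ → ℝ} (hf : ∀ i, 0 ≤ f i) (t i : ℕ) : 0 ≤ cut t f i := by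
  unfold cut
  split_ifs
  · exact hf i
  · exact le_rfl

theorem cut_le {f : ℕ → ℝ} (hf : ∀ i, 0 ≤ f i) (t i : ℕ) : cut t f i ≤ f i := by
  unfold cut
  split_ifs
  · exact le_rfl
  · exact hf i

theorem cut_pf2 {f : ℕ → ℝ} (hf : ∀ i, 0 ≤ f i) (hp : PF2 f) (t : ℕ) : PF2 (cut t f) := by
  intro i j k hij
  by_cases hi : t ≤ i
  · unfold cut
    rw [if_pos hi, if_pos (by omega), if_pos (by omega), if_pos (by omega)]
    exact hp i j k hij
  · have e : cut t f i = 0 := by
      unfold cut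
      rw [if_neg hi]
    rw [e, zero_mul]
    exact mul_nonneg (cut_nonneg hf _ _) (cut_nonneg hf _ _)

theorem lr_cut {f : ℕ → ℝ} (hf : ∀ i, 0 ≤ f i) (t : ℕ) : LR f (cut t f) := by
  intro i j hij
  by_cases hi : t ≤ i
  · unfold cut
    rw [if_pos hi, if_pos (by omega)]
    linarith
  · have e : cut t f i = 0 := by
      unfold cut
      rw [if_neg hi]
    rw [e, mul_zero]
    exact mul_nonneg (hf _) (cut_nonneg hf _ _)

/-- Efron for truncations -/
theorem lr_cut_cut {k k' : ℕ → ℝ} (h0 : ∀ i, 0 ≤ k i) (h0' : ∀ i, 0 ≤ k' i) (hp : PF2 k)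
    (hp' : PF2 k') (s t : ℕ) : LR (conv k k') (conv (cut s k) (cut t k')) := by
  refine LR.trans' (g := conv (cut s k) k') (conv_nonneg h0 h0')
    (conv_nonneg (cut_nonneg h0 s) h0') (conv_nonneg (cut_nonneg h0 s) (cut_nonneg h0' t))
    ((lr_cut h0 s).conv_right h0' hp') ((lr_cut h0' t).conv_left (cut_nonneg h0 s)
    (cut_pf2 h0 hp s)) ?_
  intro i hi
  have h1 := conv_mono (cut_nonneg h0 s) (cut_le h0' t) i
  have h2 := conv_nonneg (cut_nonneg h0 s) (cut_nonneg h0' t) i
  linarith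

/-- `a = k * x` with `x` increasing -/
theorem exists_coeff {k a : ℕ → ℝ} (h0 : ∀ i, 0 ≤ k i) (ha : ∀ i, 0 ≤ a i) (hka : LR k a)
    (hs : ∀ i, k i = 0 → a i = 0) : ∃ c : ℕ → ℝ, (∀ t, 0 ≤ c t) ∧
      ∀ n i, i < n → a i = ∑ t ∈ range n, c t * cut t k i := by
  -- the running maximum of `a / k`
  let X : ℕ → ℝ := fun n => Nat.rec (a 0 / k 0) (fun m x => max x (a (m + 1) / k (m + 1))) n
  have X0 : X 0 = a 0 / k 0 := rfl
  have X1 : ∀ m, X (m + 1) = max (X m) (a (m + 1) / k (m + 1)) := fun m => rfl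
  have Xnn : ∀ m, 0 ≤ X m := by
    intro m
    induction m with
    | zero => rw [X0]; exact div_nonneg (ha _) (h0 _)
    | succ m ih => rw [X1]; exact le_max_of_le_left ih
  have Xle : ∀ m, X m ≤ X (m + 1) := fun m => by rw [X1]; exact le_max_left _ _
  have Xub : ∀ m i, m ≤ i → 0 < k i → X m ≤ a i / k i := by
    intro m
    induction m with
    | zero =>
      intro i _ hi
      rw [X0]
      rcases (h0 0).eq_or_lt with e | e
      · rw [← e, div_zero]
        exact div_nonneg (ha _) (h0 _)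
      · rcases Nat.eq_zero_or_pos i with rfl | hi0
        · exact le_rfl
        · rw [div_le_div_iff₀ e hi]
          linarith [hka 0 i hi0]
    | succ m ih =>
      intro i hmi hi
      rw [X1]
      refine max_le (ih i (by omega) hi) ?_
      rcases (h0 (m + 1)).eq_or_lt with e | e
      · rw [← e, div_zero]
        exact div_nonneg (ha _) (h0 _)
      · rcases hmi.eq_or_lt with rfl | hi0
        · exact le_rfl
        · rw [div_le_div_iff₀ e hi]
          linarith [hka (m + 1) i hi0]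
  have Xlb : ∀ i, a i / k i ≤ X i := by
    intro i
    cases i with
    | zero => rw [X0]
    | succ i => rw [X1]; exact le_max_right _ _
  have Xeq : ∀ i, a i = X i * k i := by
    intro i
    rcases (h0 i).eq_or_lt with e | e
    · rw [← e, mul_zero]
      exact hs i e.symm
    · rw [le_antisymm (Xub i i le_rfl e) (Xlb i), div_mul_cancel₀ _ e.ne']
  let c : ℕ → ℝ := fun t => Nat.casesOn t (X 0) (fun m => X (m + 1) - X m)
  have c0 : c 0 = X 0 := rfl
  have c1 : ∀ m, c (m + 1) = X (m + 1) - X m := fun m => rfl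
  refine ⟨c, ?_, ?_⟩
  · intro t
    cases t with
    | zero => rw [c0]; exact Xnn 0
    | succ m => rw [c1]; linarith [Xle m]
  · have hsum : ∀ i, ∑ t ∈ range (i + 1), c t = X i := by
      intro i
      induction i with
      | zero => rw [Finset.sum_range_one, c0]
      | succ i ih => rw [Finset.sum_range_succ, ih, c1]; ring
    intro n i hi
    rw [← Finset.sum_subset (s₁ := range (i + 1)) (s₂ := range n)]
    · rw [Xeq i, ← hsum i, Finset.sum_mul]
      refine Finset.sum_congr rfl fun t ht => ?_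
      rw [mem_range] at ht
      unfold cut
      rw [if_pos (by omega)]
    · intro t ht
      rw [mem_range] at ht ⊢
      omega
    · intro t _ ht
      rw [mem_range] at ht
      unfold cut
      rw [if_neg (by omega), mul_zero]

/-- **Efron's monotonicity theorem** for sequences -/
theorem efron {k k' a a' : ℕ → ℝ} (h0 : ∀ i, 0 ≤ k i) (h0' : ∀ i, 0 ≤ k' i)
    (ha : ∀ i, 0 ≤ a i) (ha' : ∀ i, 0 ≤ a' i) (hp : PF2 k) (hp' : PF2 k')
    (hka : LR k a) (hka' : LR k' a') (hs : ∀ i, k i = 0 → a i = 0)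
    (hs' : ∀ i, k' i = 0 → a' i = 0) : LR (conv k k') (conv a a') := by
  obtain ⟨c, hc, hca⟩ := exists_coeff h0 ha hka hs
  obtain ⟨c', hc', hca'⟩ := exists_coeff h0' ha' hka' hs'
  intro i j hij
  have h1 : LR (conv k k') (fun n => ∑ p ∈ range (j + 1) ×ˢ range (j + 1),
      (c p.1 * c' p.2) * conv (cut p.1 k) (cut p.2 k') n) :=
    LR.sum _ _ _ (fun p _ => mul_nonneg (hc _) (hc' _))
      (fun p _ => lr_cut_cut h0 h0' hp hp' p.1 p.2)
  have h2 : ∀ n, n ≤ j → (∑ p ∈ range (j + 1) ×ˢ range (j + 1),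
      (c p.1 * c' p.2) * conv (cut p.1 k) (cut p.2 k') n) = conv a a' n := by
    intro n hn
    rw [Finset.sum_product]
    unfold conv
    have e : ∀ q ∈ antidiagonal n, a q.1 * a' q.2 = ∑ s ∈ range (j + 1), ∑ t ∈ range (j + 1),
        c s * c' t * (cut s k q.1 * cut t k' q.2) := by
      intro q hq
      rw [HasAntidiagonal.mem_antidiagonal] at hq
      rw [hca (j + 1) q.1 (by omega), hca' (j + 1) q.2 (by omega), Finset.sum_mul_sum]
      exact Finset.sum_congr rfl fun s _ => Finset.sum_congr rfl fun t _ => by ring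
    symm
    rw [Finset.sum_congr rfl e, Finset.sum_comm]
    refine Finset.sum_congr rfl fun s _ => ?_
    rw [Finset.sum_comm]
    refine Finset.sum_congr rfl fun t _ => ?_
    rw [Finset.mul_sum]
  exact LR.congr_below j h2 h1 i j hij le_rfl

/-! ### shifts -/

/-- multiplication by `τ ^ k` -/
def sh (k : ℕ) (f : ℕ → ℝ) (i : ℕ) : ℝ := if k ≤ i then f (i - k) else 0

theorem sh_nonneg {f : ℕ → ℝ} (hf : ∀ i, 0 ≤ f i) (k i : ℕ) : 0 ≤ sh k f i := by
  unfold sh
  split_ifs
  · exact hf _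
  · exact le_rfl

theorem LR.sh {f g : ℕ → ℝ} (hf : ∀ i, 0 ≤ f i) (hg : ∀ i, 0 ≤ g i) (h : LR f g) (k : ℕ) :
    LR (sh k f) (sh k g) := by
  intro i j hij
  by_cases hi : k ≤ i
  · unfold Arb.sh
    rw [if_pos (by omega), if_pos hi, if_pos hi, if_pos (by omega)]
    exact h _ _ (by omega)
  · have e : Arb.sh k g i = 0 := by
      unfold Arb.sh
      rw [if_neg hi]
    rw [e, mul_zero]
    exact mul_nonneg (sh_nonneg hf _ _) (sh_nonneg hg _ _)

theorem conv_sh (k : ℕ) (f g : ℕ → ℝ) : conv (sh k f) g = sh k (conv f g) := by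
  funext n
  unfold conv
  rw [Finset.Nat.sum_antidiagonal_eq_sum_range_succ (fun a b => sh k f a * g b) n]
  by_cases hn : k ≤ n
  · unfold sh
    rw [if_pos hn]
    show _ = ∑ p ∈ antidiagonal (n - k), f p.1 * g p.2
    rw [Finset.Nat.sum_antidiagonal_eq_sum_range_succ (fun a b => f a * g b) (n - k),
      ← Finset.sum_subset (s₁ := (range (n - k + 1)).map (addRightEmbedding k))]
    · rw [Finset.sum_map]
      refine Finset.sum_congr rfl fun a ha => ?_
      rw [mem_range] at ha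
      rw [addRightEmbedding_apply, if_pos (by omega), Nat.add_sub_cancel]
      congr 2
      omega
    · intro a ha
      rw [mem_map] at ha
      obtain ⟨b, hb, rfl⟩ := ha
      rw [mem_range] at hb ⊢
      rw [addRightEmbedding_apply]
      omega
    · intro a ha ha'
      rw [mem_range] at ha
      rw [mem_map] at ha'
      push Not at ha'
      by_cases hka : k ≤ a
      · exact absurd (by rw [addRightEmbedding_apply]; omega) (ha' (a - k) (by
          rw [mem_range]
          omega))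
      · rw [if_neg hka, zero_mul]
  · unfold sh
    rw [if_neg hn]
    refine Finset.sum_eq_zero fun a ha => ?_
    rw [mem_range] at ha
    rw [if_neg (by omega), zero_mul]

theorem PF2.lr_sh {h : ℕ → ℝ} (h0 : ∀ i, 0 ≤ h i) (hp : PF2 h) (k : ℕ) : LR h (sh k h) := by
  intro i j hij
  by_cases hi : k ≤ i
  · unfold sh
    rw [if_pos hi, if_pos (by omega)]
    have := hp (i - k) (j - k) k (by omega)
    rw [Nat.sub_add_cancel hi, Nat.sub_add_cancel (by omega)] at this
    linarith
  · have e : sh k h i = 0 := by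
      unfold sh
      rw [if_neg hi]
    rw [e, mul_zero]
    exact mul_nonneg (h0 _) (sh_nonneg h0 _ _)

theorem pf2_of_lr_sh {h : ℕ → ℝ} (H : ∀ k, LR h (sh k h)) : PF2 h := by
  intro i j k hij
  rcases hij.eq_or_lt with rfl | hij
  · linarith
  · have := H k (i + k) (j + k) (by omega)
    unfold sh at this
    rw [if_pos (by omega), if_pos (by omega), Nat.add_sub_cancel, Nat.add_sub_cancel] at this
    linarith

/-- one step is enough if there are no internal zeros (here: if the sequence of supports is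
nested) -/
theorem pf2_of_lr_one {h : ℕ → ℝ} (h0 : ∀ i, 0 ≤ h i) (H : LR h (sh 1 h))
    (hz : ∀ i j, i ≤ j → h j = 0 → h i ≠ 0 → ∀ k, j ≤ k → h k = 0) : PF2 h := by
  have step : ∀ i j, i < j → h i * h (j + 1) ≤ h (i + 1) * h j := by
    intro i j hij
    have := H (i + 1) (j + 1) (by omega)
    unfold sh at this
    rw [if_pos (by omega), if_pos (by omega), Nat.add_sub_cancel, Nat.add_sub_cancel] at this
    linarith
  intro i j k hij
  induction k with
  | zero => rw [add_zero, add_zero]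
  | succ k ih =>
    rcases (h0 i).eq_or_lt with e | e
    · rw [← e, zero_mul]
      exact mul_nonneg (h0 _) (h0 _)
    rcases (h0 (j + k)).eq_or_lt with e' | e'
    · rw [hz i (j + k) (by omega) e'.symm e.ne' (j + (k + 1)) (by omega), mul_zero]
      exact mul_nonneg (h0 _) (h0 _)
    · rcases hij.eq_or_lt with rfl | hlt
      · linarith
      · have h1 := step (i + k) (j + k) (by omega)
        have h2 : h i * h (j + (k + 1)) * h (j + k) ≤ h (i + (k + 1)) * h j * h (j + k) := by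
          have a1 : h (i + k) * h (j + k + 1) * h j ≤ h (i + k + 1) * h (j + k) * h j :=
            mul_le_mul_of_nonneg_right h1 (h0 _)
          have a2 : h i * h (j + k) * h (j + k + 1) ≤ h (i + k) * h j * h (j + k + 1) :=
            mul_le_mul_of_nonneg_right ih (h0 _)
          rw [show j + (k + 1) = j + k + 1 by ring, show i + (k + 1) = i + k + 1 by ring]
          nlinarith
        exact le_of_mul_le_mul_right h2 e'

theorem PF2.conv {f g : ℕ → ℝ} (hf : ∀ i, 0 ≤ f i) (hg : ∀ i, 0 ≤ g i) (hpf : PF2 f)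
    (hpg : PF2 g) : PF2 (conv f g) := by
  refine pf2_of_lr_sh fun k => ?_
  rw [← conv_sh]
  exact (hpf.lr_sh hf k).conv_right hg hpg

end Pool.Agent.Helper29.Arb
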