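import Pool.Agent.Helper29.Arb.SegLem

/-!
# Gluing two tangles: the two gluing formulas for the weights `W`
-/

set_option autoImplicit false

namespace Pool.Agent.Helper29.Arb

open Polynomial

variable {P : Type} [DecidableEq P] {G : Shadow P}

theorem glue_iff {A B S : Finset P} (hAo : ∀ i ∈ A, G.op i ∈ A) (hBo : ∀ i ∈ B, G.op i ∈ B)
    (hAB : Disjoint A B) (hS : S ⊆ A ∪ B) {Z u v : List P} (hperm : Z.Perm (u ++ v))
    (hu : ∀ p ∈ u, p ∈ A) (hv : ∀ p ∈ v, p ∈ B) (hZA : Z.filter (fun p => p ∈ A) = u)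
    (hZB : Z.filter (fun p => p ∈ B) = v) :
    (Z.Nodup ∧ (∀ p, p ∈ Z ↔ p ∈ A ∪ B) ∧ AscL G S Z) ↔
      ((u.Nodup ∧ (∀ p, p ∈ u ↔ p ∈ A) ∧ AscL G (S ∩ A) u) ∧
        (v.Nodup ∧ (∀ p, p ∈ v ↔ p ∈ B) ∧ AscL G (S ∩ B) v)) := by
  have h1 : Z.Nodup ↔ u.Nodup ∧ v.Nodup := by
    rw [hperm.nodup_iff, List.nodup_append]
    constructor
    · rintro ⟨a, b, _⟩
      exact ⟨a, b⟩
    · rintro ⟨a, b⟩
      refine ⟨a, b, fun p hp q hq hpq => ?_⟩
      subst hpq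
      exact (Finset.disjoint_left.1 hAB) (hu p hp) (hv p hq)
  have h2 : (∀ p, p ∈ Z ↔ p ∈ A ∪ B) ↔ (∀ p, p ∈ u ↔ p ∈ A) ∧ (∀ p, p ∈ v ↔ p ∈ B) := by
    have h3 : ∀ p, p ∈ Z ↔ p ∈ u ∨ p ∈ v := fun p => by
      rw [hperm.mem_iff, List.mem_append]
    constructor
    · intro h
      refine ⟨fun p => ⟨hu p, fun hp => ?_⟩, fun p => ⟨hv p, fun hp => ?_⟩⟩
      · rcases (h3 p).1 ((h p).2 (Finset.mem_union_left _ hp)) with h4 | h4
        · exact h4
        · exact absurd (hv p h4) (Finset.disjoint_left.1 hAB hp)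
      · rcases (h3 p).1 ((h p).2 (Finset.mem_union_right _ hp)) with h4 | h4
        · exact absurd hp (Finset.disjoint_left.1 hAB (hu p h4))
        · exact h4
    · rintro ⟨a, b⟩ p
      rw [h3, a, b, Finset.mem_union]
  rw [h1, h2, ascL_congr_union hAo hBo hS hZA hZB]
  tauto

theorem Seg.up {A S : Finset P} (hAo : ∀ i ∈ A, G.op i ∈ A) {x e : P} {l : List P}
    (h : Seg G (S ∩ A) x l e) (hl : ∀ p ∈ l, p ∈ A) : Seg G S x l e :=
  h.congr fun p hp => ex_inter hAo S (hl p hp)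

theorem Seg.down {A S : Finset P} (hAo : ∀ i ∈ A, G.op i ∈ A) {x e : P} {l : List P}
    (h : Seg G S x l e) (hl : ∀ p ∈ l, p ∈ A) : Seg G (S ∩ A) x l e :=
  h.congr fun p hp => (ex_inter hAo S (hl p hp)).symm

omit [DecidableEq P] in
theorem nodup_disj {A B : Finset P} (hAB : Disjoint A B) {u v : List P} (hu : ∀ p ∈ u, p ∈ A)
    (hv : ∀ p ∈ v, p ∈ B) (h1 : u.Nodup) (h2 : v.Nodup) : (u ++ v).Nodup := by
  rw [List.nodup_append]
  refine ⟨h1, h2, fun p hp q hq hpq => ?_⟩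
  subst hpq
  exact (Finset.disjoint_left.1 hAB) (hu p hp) (hv p hq)

omit [DecidableEq P] in
theorem mem_app {A : Finset P} {l m : List P} : (∀ p ∈ l ++ m, p ∈ A) ↔ (∀ p ∈ l, p ∈ A) ∧ ∀ p ∈ m, p ∈ A := by
  simp only [List.mem_append]
  constructor
  · intro h
    exact ⟨fun p hp => h p (Or.inl hp), fun p hp => h p (Or.inr hp)⟩
  · rintro ⟨h1, h2⟩ p (hp | hp)
    · exact h1 p hp
    · exact h2 p hp

/-! ### Both exits of `A` enter `B` -/

theorem two_K2 {A B : Finset P} {x y e f e' f' : P} (hA : IsTangle G A x y e f)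
    (hB : IsTangle G B (G.nxt e) (G.nxt f) e' f') (hAB : Disjoint A B) {S : Finset P}
    (hS : S ⊆ A ∪ B) :
    Two G (A ∪ B) x y e' f' S ↔
      (Two G A x y e f (S ∩ A) ∧ Two G B (G.nxt e) (G.nxt f) e' f' (S ∩ B)) ∨
        (Two G A x y f e (S ∩ A) ∧ Two G B (G.nxt f) (G.nxt e) e' f' (S ∩ B)) := by
  have hAo := hA.op_mem
  have hBo := hB.op_mem
  have fl : ∀ (l m l' m' : List P), (∀ p ∈ l, p ∈ A) → (∀ p ∈ m, p ∈ A) → (∀ p ∈ l', p ∈ B) →
      (∀ p ∈ m', p ∈ B) →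
      ((l ++ l') ++ (m ++ m')).Perm ((l ++ m) ++ (l' ++ m')) ∧
      ((l ++ l') ++ (m ++ m')).filter (fun p => p ∈ A) = l ++ m ∧
      ((l ++ l') ++ (m ++ m')).filter (fun p => p ∈ B) = l' ++ m' := by
    intro l m l' m' h1 h2 h3 h4
    refine ⟨?_, ?_, ?_⟩
    · rw [List.append_assoc, List.append_assoc]
      apply List.Perm.append_left
      rw [← List.append_assoc, ← List.append_assoc]
      exact List.perm_append_comm.append_right _
    · simp only [List.filter_append]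
      rw [filter_all h1, filter_all h2, filter_none hAB h3, filter_none hAB h4]
      simp
    · simp only [List.filter_append]
      rw [filter_all h3, filter_all h4, filter_none hAB.symm h1, filter_none hAB.symm h2]
      simp
  constructor
  · rintro ⟨L, M, hL, hM, hn, hc, ha⟩
    obtain ⟨l, m, hlm, hlmA, hs⟩ := hA.strands (S ∩ A) Finset.inter_subset_right
    obtain ⟨l', m', hlm', hlmB, hs'⟩ := hB.strands (S ∩ B) Finset.inter_subset_right
    obtain ⟨hlA, hmA⟩ := mem_app.1 hlmA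
    obtain ⟨hlB, hmB⟩ := mem_app.1 hlmB
    have nd1 : ((l ++ l') ++ (m ++ m')).Nodup :=
      (fl l m l' m' hlA hmA hlB hmB).1.nodup_iff.2 (nodup_disj hAB hlmA hlmB hlm hlm')
    have nd2 : ((l ++ m') ++ (m ++ l')).Nodup :=
      (fl l m m' l' hlA hmA hmB hlB).1.nodup_iff.2
        (nodup_disj hAB hlmA (mem_app.2 ⟨hmB, hlB⟩) hlm (List.nodup_append_comm.1 hlm'))
    rcases hs with ⟨h1, h2⟩ | ⟨h1, h2⟩ <;> rcases hs' with ⟨h3, h4⟩ | ⟨h3, h4⟩
    · -- x → e → e', y → f → f'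
      have s1 := (h1.up hAo hlA).append (h3.up hBo hlB)
      have s2 := (h2.up hAo hmA).append (h4.up hBo hmB)
      obtain ⟨e1, e2, _, _⟩ := seg_unique s1 s2 nd1 hL hM hn (Or.inl ⟨rfl, rfl⟩)
      subst e1
      subst e2
      obtain ⟨p1, p2, p3⟩ := fl l m l' m' hlA hmA hlB hmB
      obtain ⟨⟨q1, q2, q3⟩, r1, r2, r3⟩ := (glue_iff hAo hBo hAB hS p1 hlmA hlmB p2 p3).1 ⟨hn, hc, ha⟩
      exact Or.inl ⟨⟨l, m, h1, h2, q1, q2, q3⟩, ⟨l', m', h3, h4, r1, r2, r3⟩⟩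
    · have s1 := (h1.up hAo hlA).append (h3.up hBo hlB)
      have s2 := (h2.up hAo hmA).append (h4.up hBo hmB)
      obtain ⟨_, _, e3, _⟩ := seg_unique s1 s2 nd1 hL hM hn (Or.inr ⟨rfl, rfl⟩)
      exact absurd e3 hB.ne
    · have s1 := (h1.up hAo hlA).append (h4.up hBo hmB)
      have s2 := (h2.up hAo hmA).append (h3.up hBo hlB)
      obtain ⟨_, _, e3, _⟩ := seg_unique s1 s2 nd2 hL hM hn (Or.inr ⟨rfl, rfl⟩)
      exact absurd e3 hB.ne
    · have s1 := (h1.up hAo hlA).append (h4.up hBo hmB)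
      have s2 := (h2.up hAo hmA).append (h3.up hBo hlB)
      obtain ⟨e1, e2, _, _⟩ := seg_unique s1 s2 nd2 hL hM hn (Or.inl ⟨rfl, rfl⟩)
      subst e1
      subst e2
      obtain ⟨p1, p2, p3⟩ := fl l m m' l' hlA hmA hmB hlB
      obtain ⟨⟨q1, q2, q3⟩, r1, r2, r3⟩ :=
        (glue_iff hAo hBo hAB hS p1 hlmA (mem_app.2 ⟨hmB, hlB⟩) p2 p3).1 ⟨hn, hc, ha⟩
      exact Or.inr ⟨⟨l, m, h1, h2, q1, q2, q3⟩, ⟨m', l', h4, h3, r1, r2, r3⟩⟩
  · rintro (⟨⟨l, m, h1, h2, q1, q2, q3⟩, ⟨l', m', h3, h4, r1, r2, r3⟩⟩ |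
      ⟨⟨l, m, h1, h2, q1, q2, q3⟩, ⟨l', m', h3, h4, r1, r2, r3⟩⟩)
    all_goals
      obtain ⟨hlA, hmA⟩ := mem_app.1 fun p hp => (q2 p).1 hp
      obtain ⟨hlB, hmB⟩ := mem_app.1 fun p hp => (r2 p).1 hp
      obtain ⟨p1, p2, p3⟩ := fl l m l' m' hlA hmA hlB hmB
      obtain ⟨t1, t2, t3⟩ := (glue_iff hAo hBo hAB hS p1 (fun p hp => (q2 p).1 hp)
        (fun p hp => (r2 p).1 hp) p2 p3).2 ⟨⟨q1, q2, q3⟩, r1, r2, r3⟩
      exact ⟨l ++ l', m ++ m', (h1.up hAo hlA).append (h3.up hBo hlB),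
        (h2.up hAo hmA).append (h4.up hBo hmB), t1, t2, t3⟩

theorem isTangle_K2 {A B : Finset P} {x y e f e' f' : P} (hA : IsTangle G A x y e f)
    (hB : IsTangle G B (G.nxt e) (G.nxt f) e' f') (hAB : Disjoint A B) :
    IsTangle G (A ∪ B) x y e' f' where
  op_mem i hi := by
    rcases Finset.mem_union.1 hi with h | h
    · exact Finset.mem_union_left _ (hA.op_mem i h)
    · exact Finset.mem_union_right _ (hB.op_mem i h)
  ne := hB.ne
  strands S hS := by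
    have hAo := hA.op_mem
    have hBo := hB.op_mem
    obtain ⟨l, m, hlm, hlmA, hs⟩ := hA.strands (S ∩ A) Finset.inter_subset_right
    obtain ⟨l', m', hlm', hlmB, hs'⟩ := hB.strands (S ∩ B) Finset.inter_subset_right
    obtain ⟨hlA, hmA⟩ := mem_app.1 hlmA
    obtain ⟨hlB, hmB⟩ := mem_app.1 hlmB
    have perm : ∀ (l m l' m' : List P), ((l ++ l') ++ (m ++ m')).Perm ((l ++ m) ++ (l' ++ m')) := by
      intro l m l' m'
      rw [List.append_assoc, List.append_assoc]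
      apply List.Perm.append_left
      rw [← List.append_assoc, ← List.append_assoc]
      exact List.perm_append_comm.append_right _
    have nd1 : ((l ++ l') ++ (m ++ m')).Nodup :=
      (perm l m l' m').nodup_iff.2 (nodup_disj hAB hlmA hlmB hlm hlm')
    have nd2 : ((l ++ m') ++ (m ++ l')).Nodup :=
      (perm l m m' l').nodup_iff.2
        (nodup_disj hAB hlmA (mem_app.2 ⟨hmB, hlB⟩) hlm (List.nodup_append_comm.1 hlm'))
    have uA : ∀ p ∈ l ++ m, p ∈ A ∪ B := fun p hp => Finset.mem_union_left _ (hlmA p hp)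
    have uB : ∀ p ∈ l' ++ m', p ∈ A ∪ B := fun p hp => Finset.mem_union_right _ (hlmB p hp)
    obtain ⟨ul, um⟩ := mem_app.1 uA
    obtain ⟨ul', um'⟩ := mem_app.1 uB
    rcases hs with ⟨h1, h2⟩ | ⟨h1, h2⟩ <;> rcases hs' with ⟨h3, h4⟩ | ⟨h3, h4⟩
    · exact ⟨_, _, nd1, mem_app.2 ⟨mem_app.2 ⟨ul, ul'⟩, mem_app.2 ⟨um, um'⟩⟩,
        Or.inl ⟨(h1.up hAo hlA).append (h3.up hBo hlB), (h2.up hAo hmA).append (h4.up hBo hmB)⟩⟩
    · exact ⟨_, _, nd1, mem_app.2 ⟨mem_app.2 ⟨ul, ul'⟩, mem_app.2 ⟨um, um'⟩⟩,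
        Or.inr ⟨(h1.up hAo hlA).append (h3.up hBo hlB), (h2.up hAo hmA).append (h4.up hBo hmB)⟩⟩
    · exact ⟨_, _, nd2, mem_app.2 ⟨mem_app.2 ⟨ul, um'⟩, mem_app.2 ⟨um, ul'⟩⟩,
        Or.inr ⟨(h1.up hAo hlA).append (h4.up hBo hmB), (h2.up hAo hmA).append (h3.up hBo hlB)⟩⟩
    · exact ⟨_, _, nd2, mem_app.2 ⟨mem_app.2 ⟨ul, um'⟩, mem_app.2 ⟨um, ul'⟩⟩,
        Or.inl ⟨(h1.up hAo hlA).append (h4.up hBo hmB), (h2.up hAo hmA).append (h3.up hBo hlB)⟩⟩

/-! ### One exit of `A` enters `B` and one exit of `B` enters `A` -/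

/-- The four ways to join the strands of `A` and `B`, as statements about lists. -/
theorem lists_K1 {A B : Finset P} (hAB : Disjoint A B) (l m l' m' : List P)
    (h1 : ∀ p ∈ l, p ∈ A) (h2 : ∀ p ∈ m, p ∈ A) (h3 : ∀ p ∈ l', p ∈ B) (h4 : ∀ p ∈ m', p ∈ B) :
    ((l ++ (l' ++ (m ++ m'))).Perm ((l ++ m) ++ (l' ++ m')) ∧
      (l ++ (l' ++ (m ++ m'))).filter (fun p => p ∈ A) = l ++ m ∧
      (l ++ (l' ++ (m ++ m'))).filter (fun p => p ∈ B) = l' ++ m') ∧
    ((((l ++ (l' ++ m)) ++ m').Perm ((l ++ m) ++ (l' ++ m')) ∧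
      ((l ++ (l' ++ m)) ++ m').filter (fun p => p ∈ A) = l ++ m ∧
      ((l ++ (l' ++ m)) ++ m').filter (fun p => p ∈ B) = l' ++ m')) ∧
    (((l ++ l') ++ (m' ++ m)).Perm ((l ++ m) ++ (l' ++ m')) ∧
      ((l ++ l') ++ (m' ++ m)).filter (fun p => p ∈ A) = l ++ m ∧
      ((l ++ l') ++ (m' ++ m)).filter (fun p => p ∈ B) = l' ++ m') := by
  refine ⟨⟨?_, ?_, ?_⟩, ⟨?_, ?_, ?_⟩, ⟨?_, ?_, ?_⟩⟩
  · rw [List.append_assoc]
    apply List.Perm.append_left
    rw [← List.append_assoc, ← List.append_assoc]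
    exact List.perm_append_comm.append_right _
  · simp only [List.filter_append]
    rw [filter_all h1, filter_all h2, filter_none hAB h3, filter_none hAB h4]
    simp
  · simp only [List.filter_append]
    rw [filter_all h3, filter_all h4, filter_none hAB.symm h1, filter_none hAB.symm h2]
    simp
  · rw [List.append_assoc, List.append_assoc, List.append_assoc]
    apply List.Perm.append_left
    rw [← List.append_assoc, ← List.append_assoc]
    exact List.perm_append_comm.append_right _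
  · simp only [List.filter_append]
    rw [filter_all h1, filter_all h2, filter_none hAB h3, filter_none hAB h4]
    simp
  · simp only [List.filter_append]
    rw [filter_all h3, filter_all h4, filter_none hAB.symm h1, filter_none hAB.symm h2]
    simp
  · rw [List.append_assoc, List.append_assoc]
    apply List.Perm.append_left
    rw [← List.append_assoc]
    exact List.perm_append_comm
  · simp only [List.filter_append]
    rw [filter_all h1, filter_all h2, filter_none hAB h3, filter_none hAB h4]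
    simp
  · simp only [List.filter_append]
    rw [filter_all h3, filter_all h4, filter_none hAB.symm h1, filter_none hAB.symm h2]
    simp

theorem two_K1_same {A B : Finset P} {x y e f x' y' e' f' : P} (hA : IsTangle G A x y e f)
    (hB : IsTangle G B x' y' e' f') (hAB : Disjoint A B) (hy' : G.nxt f = y') (hy : G.nxt f' = y)
    {S : Finset P} (hS : S ⊆ A ∪ B) :
    Two G (A ∪ B) x x' e e' S ↔
      (Two G A x y e f (S ∩ A) ∧ Two G B x' y' f' e' (S ∩ B)) ∨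
        (Two G A x y f e (S ∩ A) ∧ Two G B y' x' f' e' (S ∩ B)) := by
  subst hy'
  subst hy
  have hAo := hA.op_mem
  have hBo := hB.op_mem
  constructor
  · rintro ⟨L, M, hL, hM, hn, hc, ha⟩
    obtain ⟨l, m, hlm, hlmA, hs⟩ := hA.strands (S ∩ A) Finset.inter_subset_right
    obtain ⟨l', m', hlm', hlmB, hs'⟩ := hB.strands (S ∩ B) Finset.inter_subset_right
    obtain ⟨hlA, hmA⟩ := mem_app.1 hlmA
    obtain ⟨hlB, hmB⟩ := mem_app.1 hlmB
    rcases hs with ⟨h1, h2⟩ | ⟨h1, h2⟩ <;> rcases hs' with ⟨h3, h4⟩ | ⟨h3, h4⟩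
    · -- a closed component
      exfalso
      have s1 := h1.up hAo hlA
      have s2 := h3.up hBo hlB
      have nd : (l ++ l').Nodup := nodup_disj hAB hlA hlB (List.nodup_append.1 hlm).1
        (List.nodup_append.1 hlm').1
      obtain ⟨e1, e2, _, _⟩ := seg_unique s1 s2 nd hL hM hn (Or.inl ⟨rfl, rfl⟩)
      subst e1
      subst e2
      have hyA : G.nxt f' ∈ A := hmA _ h2.head_mem
      rcases List.mem_append.1 ((hc _).2 (Finset.mem_union_left B hyA)) with h5 | h5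
      · exact (List.nodup_append.1 hlm).2.2 _ h5 _ h2.head_mem rfl
      · exact Finset.disjoint_left.1 hAB hyA (hlB _ h5)
    · -- x → e, x' → f' → y → f → y' → e'
      obtain ⟨⟨p1, p2, p3⟩, _, _⟩ := lists_K1 hAB l m l' m' hlA hmA hlB hmB
      have s1 := h1.up hAo hlA
      have s2 := (h3.up hBo hlB).append ((h2.up hAo hmA).append (h4.up hBo hmB))
      have nd := p1.nodup_iff.2 (nodup_disj hAB hlmA hlmB hlm hlm')
      obtain ⟨e1, e2, _, _⟩ := seg_unique s1 s2 nd hL hM hn (Or.inl ⟨rfl, rfl⟩)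
      rw [e1, e2] at hn hc ha
      obtain ⟨⟨q1, q2, q3⟩, r1, r2, r3⟩ := (glue_iff hAo hBo hAB hS p1 hlmA hlmB p2 p3).1 ⟨hn, hc, ha⟩
      exact Or.inl ⟨⟨l, m, h1, h2, q1, q2, q3⟩, ⟨l', m', h3, h4, r1, r2, r3⟩⟩
    · -- x → f → y' → f' → y → e, x' → e'
      have hml : ∀ p ∈ m' ++ l', p ∈ B := mem_app.2 ⟨hmB, hlB⟩
      obtain ⟨_, ⟨p1, p2, p3⟩, _⟩ := lists_K1 hAB l m m' l' hlA hmA hmB hlB
      have s1 := (h1.up hAo hlA).append ((h4.up hBo hmB).append (h2.up hAo hmA))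
      have s2 := h3.up hBo hlB
      have nd := p1.nodup_iff.2 (nodup_disj hAB hlmA hml hlm (List.nodup_append_comm.1 hlm'))
      obtain ⟨e1, e2, _, _⟩ := seg_unique s1 s2 nd hL hM hn (Or.inl ⟨rfl, rfl⟩)
      rw [e1, e2] at hn hc ha
      obtain ⟨⟨q1, q2, q3⟩, r1, r2, r3⟩ := (glue_iff hAo hBo hAB hS p1 hlmA hml p2 p3).1 ⟨hn, hc, ha⟩
      exact Or.inr ⟨⟨l, m, h1, h2, q1, q2, q3⟩, ⟨m', l', h4, h3, r1, r2, r3⟩⟩
    · -- x → f → y' → e', x' → f' → y → e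
      exfalso
      have hml : ∀ p ∈ m' ++ l', p ∈ B := mem_app.2 ⟨hmB, hlB⟩
      obtain ⟨_, _, p1, _, _⟩ := lists_K1 hAB l m m' l' hlA hmA hmB hlB
      have s1 := (h1.up hAo hlA).append (h4.up hBo hmB)
      have s2 := (h3.up hBo hlB).append (h2.up hAo hmA)
      have nd := p1.nodup_iff.2 (nodup_disj hAB hlmA hml hlm (List.nodup_append_comm.1 hlm'))
      obtain ⟨_, _, e3, _⟩ := seg_unique s1 s2 nd hL hM hn (Or.inr ⟨rfl, rfl⟩)
      have heA : e ∈ A := h2.exit_mem hAo hmA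
      have heB : e' ∈ B := h4.exit_mem hBo hmB
      rw [e3] at heA
      exact Finset.disjoint_left.1 hAB heA heB
  · rintro (⟨⟨l, m, h1, h2, q1, q2, q3⟩, ⟨l', m', h3, h4, r1, r2, r3⟩⟩ |
      ⟨⟨l, m, h1, h2, q1, q2, q3⟩, ⟨l', m', h3, h4, r1, r2, r3⟩⟩)
    · obtain ⟨hlA, hmA⟩ := mem_app.1 fun p hp => (q2 p).1 hp
      obtain ⟨hlB, hmB⟩ := mem_app.1 fun p hp => (r2 p).1 hp
      obtain ⟨⟨p1, p2, p3⟩, _, _⟩ := lists_K1 hAB l m l' m' hlA hmA hlB hmB
      obtain ⟨t1, t2, t3⟩ := (glue_iff hAo hBo hAB hS p1 (fun p hp => (q2 p).1 hp)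
        (fun p hp => (r2 p).1 hp) p2 p3).2 ⟨⟨q1, q2, q3⟩, r1, r2, r3⟩
      exact ⟨l, l' ++ (m ++ m'), h1.up hAo hlA,
        (h3.up hBo hlB).append ((h2.up hAo hmA).append (h4.up hBo hmB)), t1, t2, t3⟩
    · obtain ⟨hlA, hmA⟩ := mem_app.1 fun p hp => (q2 p).1 hp
      obtain ⟨hlB, hmB⟩ := mem_app.1 fun p hp => (r2 p).1 hp
      obtain ⟨_, ⟨p1, p2, p3⟩, _⟩ := lists_K1 hAB l m l' m' hlA hmA hlB hmB
      obtain ⟨t1, t2, t3⟩ := (glue_iff hAo hBo hAB hS p1 (fun p hp => (q2 p).1 hp)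
        (fun p hp => (r2 p).1 hp) p2 p3).2 ⟨⟨q1, q2, q3⟩, r1, r2, r3⟩
      exact ⟨l ++ (l' ++ m), m', (h1.up hAo hlA).append ((h3.up hBo hlB).append (h2.up hAo hmA)),
        h4.up hBo hmB, t1, t2, t3⟩

theorem two_K1_cross {A B : Finset P} {x y e f x' y' e' f' : P} (hA : IsTangle G A x y e f)
    (hB : IsTangle G B x' y' e' f') (hAB : Disjoint A B) (hy' : G.nxt f = y') (hy : G.nxt f' = y)
    {S : Finset P} (hS : S ⊆ A ∪ B) :
    Two G (A ∪ B) x x' e' e S ↔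
      (Two G A x y f e (S ∩ A) ∧ Two G B y' x' e' f' (S ∩ B)) := by
  subst hy'
  subst hy
  have hAo := hA.op_mem
  have hBo := hB.op_mem
  constructor
  · rintro ⟨L, M, hL, hM, hn, hc, ha⟩
    obtain ⟨l, m, hlm, hlmA, hs⟩ := hA.strands (S ∩ A) Finset.inter_subset_right
    obtain ⟨l', m', hlm', hlmB, hs'⟩ := hB.strands (S ∩ B) Finset.inter_subset_right
    obtain ⟨hlA, hmA⟩ := mem_app.1 hlmA
    obtain ⟨hlB, hmB⟩ := mem_app.1 hlmB
    have hml : ∀ p ∈ m' ++ l', p ∈ B := mem_app.2 ⟨hmB, hlB⟩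
    have hee : e ≠ e' := by
      have heA : e ∈ A := by
        rcases hs with ⟨h1, _⟩ | ⟨_, h2⟩
        · exact h1.exit_mem hAo hlA
        · exact h2.exit_mem hAo hmA
      have heB : e' ∈ B := by
        rcases hs' with ⟨h1, _⟩ | ⟨_, h2⟩
        · exact h1.exit_mem hBo hlB
        · exact h2.exit_mem hBo hmB
      intro h
      rw [h] at heA
      exact Finset.disjoint_left.1 hAB heA heB
    rcases hs with ⟨h1, h2⟩ | ⟨h1, h2⟩ <;> rcases hs' with ⟨h3, h4⟩ | ⟨h3, h4⟩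
    · exfalso
      have s1 := h1.up hAo hlA
      have s2 := h3.up hBo hlB
      have nd : (l ++ l').Nodup := nodup_disj hAB hlA hlB (List.nodup_append.1 hlm).1
        (List.nodup_append.1 hlm').1
      obtain ⟨_, _, e3, _⟩ := seg_unique s1 s2 nd hL hM hn (Or.inr ⟨rfl, rfl⟩)
      exact hee e3.symm
    · exfalso
      obtain ⟨⟨p1, p2, p3⟩, _, _⟩ := lists_K1 hAB l m l' m' hlA hmA hlB hmB
      have s1 := h1.up hAo hlA
      have s2 := (h3.up hBo hlB).append ((h2.up hAo hmA).append (h4.up hBo hmB))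
      have nd := p1.nodup_iff.2 (nodup_disj hAB hlmA hlmB hlm hlm')
      obtain ⟨_, _, e3, _⟩ := seg_unique s1 s2 nd hL hM hn (Or.inr ⟨rfl, rfl⟩)
      exact hee e3.symm
    · exfalso
      obtain ⟨_, ⟨p1, p2, p3⟩, _⟩ := lists_K1 hAB l m m' l' hlA hmA hmB hlB
      have s1 := (h1.up hAo hlA).append ((h4.up hBo hmB).append (h2.up hAo hmA))
      have s2 := h3.up hBo hlB
      have nd := p1.nodup_iff.2 (nodup_disj hAB hlmA hml hlm (List.nodup_append_comm.1 hlm'))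
      obtain ⟨_, _, e3, _⟩ := seg_unique s1 s2 nd hL hM hn (Or.inr ⟨rfl, rfl⟩)
      exact hee e3.symm
    · obtain ⟨_, _, p1, p2, p3⟩ := lists_K1 hAB l m m' l' hlA hmA hmB hlB
      have s1 := (h1.up hAo hlA).append (h4.up hBo hmB)
      have s2 := (h3.up hBo hlB).append (h2.up hAo hmA)
      have nd := p1.nodup_iff.2 (nodup_disj hAB hlmA hml hlm (List.nodup_append_comm.1 hlm'))
      obtain ⟨e1, e2, _, _⟩ := seg_unique s1 s2 nd hL hM hn (Or.inl ⟨rfl, rfl⟩)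
      subst e1
      subst e2
      obtain ⟨⟨q1, q2, q3⟩, r1, r2, r3⟩ := (glue_iff hAo hBo hAB hS p1 hlmA hml p2 p3).1 ⟨hn, hc, ha⟩
      exact ⟨⟨l, m, h1, h2, q1, q2, q3⟩, ⟨m', l', h4, h3, r1, r2, r3⟩⟩
  · rintro ⟨⟨l, m, h1, h2, q1, q2, q3⟩, ⟨l', m', h3, h4, r1, r2, r3⟩⟩
    obtain ⟨hlA, hmA⟩ := mem_app.1 fun p hp => (q2 p).1 hp
    obtain ⟨hlB, hmB⟩ := mem_app.1 fun p hp => (r2 p).1 hp
    obtain ⟨_, _, p1, p2, p3⟩ := lists_K1 hAB l m l' m' hlA hmA hlB hmB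
    obtain ⟨t1, t2, t3⟩ := (glue_iff hAo hBo hAB hS p1 (fun p hp => (q2 p).1 hp)
      (fun p hp => (r2 p).1 hp) p2 p3).2 ⟨⟨q1, q2, q3⟩, r1, r2, r3⟩
    exact ⟨l ++ l', m' ++ m, (h1.up hAo hlA).append (h3.up hBo hlB),
      (h4.up hBo hmB).append (h2.up hAo hmA), t1, t2, t3⟩

theorem isTangle_K1 {A B : Finset P} {x y e f x' y' e' f' : P} (hA : IsTangle G A x y e f)
    (hB : IsTangle G B x' y' e' f') (hAB : Disjoint A B) (hy' : G.nxt f = y') (hy : G.nxt f' = y) :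
    IsTangle G (A ∪ B) x x' e e' where
  op_mem i hi := by
    rcases Finset.mem_union.1 hi with h | h
    · exact Finset.mem_union_left _ (hA.op_mem i h)
    · exact Finset.mem_union_right _ (hB.op_mem i h)
  ne := by
    obtain ⟨l, m, hlm, hlmA, hs⟩ := hA.strands ∅ (Finset.empty_subset _)
    obtain ⟨l', m', hlm', hlmB, hs'⟩ := hB.strands ∅ (Finset.empty_subset _)
    obtain ⟨hlA, hmA⟩ := mem_app.1 hlmA
    obtain ⟨hlB, hmB⟩ := mem_app.1 hlmB
    have heA : e ∈ A := by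
      rcases hs with ⟨h1, _⟩ | ⟨_, h2⟩
      · exact h1.exit_mem hA.op_mem hlA
      · exact h2.exit_mem hA.op_mem hmA
    have heB : e' ∈ B := by
      rcases hs' with ⟨h1, _⟩ | ⟨_, h2⟩
      · exact h1.exit_mem hB.op_mem hlB
      · exact h2.exit_mem hB.op_mem hmB
    intro h
    rw [h] at heA
    exact Finset.disjoint_left.1 hAB heA heB
  strands S hS := by
    subst hy'
    subst hy
    have hAo := hA.op_mem
    have hBo := hB.op_mem
    obtain ⟨l, m, hlm, hlmA, hs⟩ := hA.strands (S ∩ A) Finset.inter_subset_right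
    obtain ⟨l', m', hlm', hlmB, hs'⟩ := hB.strands (S ∩ B) Finset.inter_subset_right
    obtain ⟨hlA, hmA⟩ := mem_app.1 hlmA
    obtain ⟨hlB, hmB⟩ := mem_app.1 hlmB
    have hml : ∀ p ∈ m' ++ l', p ∈ B := mem_app.2 ⟨hmB, hlB⟩
    have uA : ∀ p ∈ l ++ m, p ∈ A ∪ B := fun p hp => Finset.mem_union_left _ (hlmA p hp)
    have uB : ∀ p ∈ l' ++ m', p ∈ A ∪ B := fun p hp => Finset.mem_union_right _ (hlmB p hp)
    obtain ⟨ul, um⟩ := mem_app.1 uA
    obtain ⟨ul', um'⟩ := mem_app.1 uB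
    rcases hs with ⟨h1, h2⟩ | ⟨h1, h2⟩ <;> rcases hs' with ⟨h3, h4⟩ | ⟨h3, h4⟩
    · refine ⟨l, l', nodup_disj hAB hlA hlB (List.nodup_append.1 hlm).1
        (List.nodup_append.1 hlm').1, mem_app.2 ⟨ul, ul'⟩, Or.inl ⟨h1.up hAo hlA, h3.up hBo hlB⟩⟩
    · obtain ⟨⟨p1, _, _⟩, _, _⟩ := lists_K1 hAB l m l' m' hlA hmA hlB hmB
      exact ⟨_, _, p1.nodup_iff.2 (nodup_disj hAB hlmA hlmB hlm hlm'),
        mem_app.2 ⟨ul, mem_app.2 ⟨ul', mem_app.2 ⟨um, um'⟩⟩⟩,
        Or.inl ⟨h1.up hAo hlA, (h3.up hBo hlB).append ((h2.up hAo hmA).append (h4.up hBo hmB))⟩⟩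
    · obtain ⟨_, ⟨p1, _, _⟩, _⟩ := lists_K1 hAB l m m' l' hlA hmA hmB hlB
      exact ⟨_, _, p1.nodup_iff.2 (nodup_disj hAB hlmA hml hlm (List.nodup_append_comm.1 hlm')),
        mem_app.2 ⟨mem_app.2 ⟨ul, mem_app.2 ⟨um', um⟩⟩, ul'⟩,
        Or.inl ⟨(h1.up hAo hlA).append ((h4.up hBo hmB).append (h2.up hAo hmA)), h3.up hBo hlB⟩⟩
    · obtain ⟨_, _, p1, _, _⟩ := lists_K1 hAB l m m' l' hlA hmA hmB hlB
      exact ⟨_, _, p1.nodup_iff.2 (nodup_disj hAB hlmA hml hlm (List.nodup_append_comm.1 hlm')),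
        mem_app.2 ⟨mem_app.2 ⟨ul, um'⟩, mem_app.2 ⟨ul', um⟩⟩,
        Or.inr ⟨(h1.up hAo hlA).append (h4.up hBo hmB), (h3.up hBo hlB).append (h2.up hAo hmA)⟩⟩

/-! ### The weights -/

theorem two_excl {A : Finset P} {x y e f : P} {S : Finset P} (hef : e ≠ f)
    (h : Two G A x y e f S) (h' : Two G A x y f e S) : False := by
  obtain ⟨l, m, h1, h2, h3, _, _⟩ := h
  obtain ⟨l', m', h1', h2', h3', _, _⟩ := h'
  obtain ⟨_, _, h4, _⟩ := seg_unique h1 h2 h3 h1' h2' h3' (Or.inr ⟨rfl, rfl⟩)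
  exact hef h4.symm

variable [Fintype P]

theorem sum_prod {A B : Finset P} (hAB : Disjoint A B) (f g : Finset P → ℤ[X]) :
    ∑ S ∈ (und G ∩ (A ∪ B)).powerset, f (S ∩ A) * g (S ∩ B) =
      (∑ S ∈ (und G ∩ A).powerset, f S) * ∑ S ∈ (und G ∩ B).powerset, g S := by
  rw [Finset.sum_mul_sum, ← Finset.sum_product']
  apply Finset.sum_nbij' (fun S => (S ∩ A, S ∩ B)) (fun p => p.1 ∪ p.2)
  · intro S hS
    simp only [Finset.mem_powerset, Finset.mem_product] at hS ⊢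
    exact ⟨fun i hi => by
        have h1 := Finset.mem_inter.1 hi
        exact Finset.mem_inter.2 ⟨(Finset.mem_inter.1 (hS h1.1)).1, h1.2⟩,
      fun i hi => by
        have h1 := Finset.mem_inter.1 hi
        exact Finset.mem_inter.2 ⟨(Finset.mem_inter.1 (hS h1.1)).1, h1.2⟩⟩
  · rintro ⟨s, t⟩ hp
    simp only [Finset.mem_powerset, Finset.mem_product] at hp ⊢
    intro i hi
    rcases Finset.mem_union.1 hi with h | h
    · have h1 := Finset.mem_inter.1 (hp.1 h)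
      exact Finset.mem_inter.2 ⟨h1.1, Finset.mem_union_left _ h1.2⟩
    · have h1 := Finset.mem_inter.1 (hp.2 h)
      exact Finset.mem_inter.2 ⟨h1.1, Finset.mem_union_right _ h1.2⟩
  · intro S hS
    simp only [Finset.mem_powerset] at hS
    ext i
    simp only [Finset.mem_union, Finset.mem_inter]
    constructor
    · rintro (⟨h, _⟩ | ⟨h, _⟩) <;> exact h
    · intro h
      have h1 := (Finset.mem_inter.1 (hS h)).2
      rcases Finset.mem_union.1 h1 with h2 | h2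
      · exact Or.inl ⟨h, h2⟩
      · exact Or.inr ⟨h, h2⟩
  · rintro ⟨s, t⟩ hp
    simp only [Finset.mem_powerset, Finset.mem_product] at hp
    have hs : s ⊆ A := fun i hi => (Finset.mem_inter.1 (hp.1 hi)).2
    have ht : t ⊆ B := fun i hi => (Finset.mem_inter.1 (hp.2 hi)).2
    refine Prod.ext ?_ ?_
    · ext i
      simp only [Finset.mem_inter, Finset.mem_union]
      constructor
      · rintro ⟨h1 | h1, h2⟩
        · exact h1
        · exact absurd (ht h1) (Finset.disjoint_left.1 hAB h2)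
      · intro h1
        exact ⟨Or.inl h1, hs h1⟩
    · ext i
      simp only [Finset.mem_inter, Finset.mem_union]
      constructor
      · rintro ⟨h1 | h1, h2⟩
        · exact absurd h2 (Finset.disjoint_left.1 hAB (hs h1))
        · exact h1
      · intro h1
        exact ⟨Or.inr h1, ht h1⟩
  · intro S _
    rfl

omit [Fintype P] in
theorem card_split {A B S : Finset P} (hAB : Disjoint A B) (hS : S ⊆ A ∪ B) :
    S.card = (S ∩ A).card + (S ∩ B).card := by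
  have h1 : S = (S ∩ A) ∪ (S ∩ B) := by
    rw [← Finset.inter_union_distrib_left, Finset.inter_eq_left.2 hS]
  have h2 : Disjoint (S ∩ A) (S ∩ B) :=
    Finset.disjoint_of_subset_left Finset.inter_subset_right
      (Finset.disjoint_of_subset_right Finset.inter_subset_right hAB)
  conv_lhs => rw [h1]
  exact Finset.card_union_of_disjoint h2

open Classical in
theorem W_eq (A : Finset P) (x y e f : P) :
    W G A x y e f = ∑ S ∈ (und G ∩ A).powerset, if Two G A x y e f S then (X : ℤ[X]) ^ S.card else 0 := by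
  rw [W, Finset.sum_filter]

open Classical in
theorem glue_sum {A B : Finset P} (hAB : Disjoint A B) {p a₁ b₁ a₂ b₂ : Finset P → Prop}
    (h : ∀ S ⊆ A ∪ B, p S ↔ (a₁ (S ∩ A) ∧ b₁ (S ∩ B)) ∨ (a₂ (S ∩ A) ∧ b₂ (S ∩ B)))
    (hx : ∀ S, a₁ S → a₂ S → False) :
    (∑ S ∈ (und G ∩ (A ∪ B)).powerset, if p S then (X : ℤ[X]) ^ S.card else 0) =
      (∑ S ∈ (und G ∩ A).powerset, if a₁ S then (X : ℤ[X]) ^ S.card else 0) *
          (∑ S ∈ (und G ∩ B).powerset, if b₁ S then (X : ℤ[X]) ^ S.card else 0) +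
        (∑ S ∈ (und G ∩ A).powerset, if a₂ S then (X : ℤ[X]) ^ S.card else 0) *
          (∑ S ∈ (und G ∩ B).powerset, if b₂ S then (X : ℤ[X]) ^ S.card else 0) := by
  rw [← sum_prod hAB, ← sum_prod hAB, ← Finset.sum_add_distrib]
  apply Finset.sum_congr rfl
  intro S hS
  have hS' : S ⊆ A ∪ B := (Finset.mem_powerset.1 hS).trans Finset.inter_subset_right
  rw [card_split hAB hS', pow_add]
  have h1 := h S hS'
  have h2 := hx (S ∩ A)
  by_cases c1 : a₁ (S ∩ A) <;> by_cases c2 : a₂ (S ∩ A) <;> by_cases c3 : b₁ (S ∩ B) <;>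
    by_cases c4 : b₂ (S ∩ B) <;> by_cases c5 : p S <;> simp_all

theorem W_K2 {A B : Finset P} {x y e f e' f' : P} (hA : IsTangle G A x y e f)
    (hB : IsTangle G B (G.nxt e) (G.nxt f) e' f') (hAB : Disjoint A B) :
    W G (A ∪ B) x y e' f' = W G A x y e f * W G B (G.nxt e) (G.nxt f) e' f' +
      W G A x y f e * W G B (G.nxt f) (G.nxt e) e' f' := by
  classical
  simp only [W_eq]
  exact glue_sum hAB (fun S hS => two_K2 hA hB hAB hS) fun S h1 h2 => two_excl hA.ne h1 h2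

theorem W_K1_same {A B : Finset P} {x y e f x' y' e' f' : P} (hA : IsTangle G A x y e f)
    (hB : IsTangle G B x' y' e' f') (hAB : Disjoint A B) (hy' : G.nxt f = y') (hy : G.nxt f' = y) :
    W G (A ∪ B) x x' e e' = W G A x y e f * W G B x' y' f' e' +
      W G A x y f e * W G B y' x' f' e' := by
  classical
  simp only [W_eq]
  exact glue_sum hAB (fun S hS => two_K1_same hA hB hAB hy' hy hS) fun S h1 h2 => two_excl hA.ne h1 h2

theorem W_K1_cross {A B : Finset P} {x y e f x' y' e' f' : P} (hA : IsTangle G A x y e f)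
    (hB : IsTangle G B x' y' e' f') (hAB : Disjoint A B) (hy' : G.nxt f = y') (hy : G.nxt f' = y) :
    W G (A ∪ B) x x' e' e = W G A x y f e * W G B y' x' e' f' := by
  classical
  simp only [W_eq]
  have h := glue_sum (G := G) hAB (p := Two G (A ∪ B) x x' e' e) (a₁ := Two G A x y f e)
    (b₁ := Two G B y' x' e' f') (a₂ := fun _ => False) (b₂ := fun _ => False)
    (fun S hS => by
      rw [two_K1_cross hA hB hAB hy' hy hS]
      simp) (fun S _ h => h)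
  rw [h]
  simp

end Pool.Agent.Helper29.Arb
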