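import Pool.Agent.Helper29.Arb.Types

/-!
# The induction along an algebraic tangle
-/

set_option autoImplicit false

set_option linter.unusedSectionVars false

namespace Pool.Agent.Helper29.Arb

open Polynomial LaurentPolynomial Pool.Agent.Helper2.Arb

variable {P : Type} [Fintype P] [DecidableEq P] {G : Shadow P}

/-! ### A single crossing -/

theorem ex_empty (i : P) : ex G ∅ i = i := by
  unfold ex
  simp

theorem ex_single (i : P) : ex G {i} i = G.op i := by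
  unfold ex
  simp

theorem ex_single' (i : P) : ex G {i} (G.op i) = i := by
  unfold ex
  simp [G.op_op]

theorem seg_one' {S : Finset P} {x e : P} (h : ex G S x = e) : Seg G S x [x] e := by
  subst h
  exact Seg.one x

theorem cover_pair (i : P) : ∀ p, p ∈ [i] ++ [G.op i] ↔ p ∈ ({i, G.op i} : Finset P) := by
  intro p
  simp

theorem cover_pair' (i : P) : ∀ p, p ∈ [G.op i] ++ [i] ↔ p ∈ ({i, G.op i} : Finset P) := by
  intro p
  simp [or_comm]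

theorem nodup_pair (i : P) : ([i] ++ [G.op i]).Nodup := by
  simp [(G.op_ne i).symm]

theorem nodup_pair' (i : P) : ([G.op i] ++ [i]).Nodup := by
  simp [G.op_ne i]

theorem isTangle_crossing (i : P) : IsTangle G {i, G.op i} (G.op i) i (G.op i) i where
  op_mem j hj := by
    rcases Finset.mem_insert.1 hj with h | h
    · rw [h]
      simp
    · rw [Finset.mem_singleton.1 h, G.op_op]
      simp
  ne := G.op_ne i
  strands S _ := by
    refine ⟨[G.op i], [i], nodup_pair' i, fun p hp => (cover_pair' i p).1 hp, ?_⟩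
    by_cases h : i ∈ S ∨ G.op i ∈ S
    · right
      constructor
      · apply seg_one'
        unfold ex
        rw [if_pos (by rw [G.op_op]; exact h.symm), G.op_op]
      · apply seg_one'
        unfold ex
        rw [if_pos h]
    · left
      constructor
      · apply seg_one'
        unfold ex
        rw [if_neg (by rw [G.op_op]; exact fun h2 => h h2.symm)]
      · apply seg_one'
        unfold ex
        rw [if_neg h]

open Classical in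
theorem W_crossing {i : P} (h : G.lf i = true) (x y e f : P) :
    W G {i, G.op i} x y e f = (if Two G {i, G.op i} x y e f ∅ then 1 else 0) +
      (if Two G {i, G.op i} x y e f {i} then X else 0) := by
  have h1 : und G ∩ {i, G.op i} = {i} := by
    ext j
    simp only [und, Finset.mem_inter, Finset.mem_filter, Finset.mem_univ, true_and,
      Finset.mem_insert, Finset.mem_singleton]
    constructor
    · rintro ⟨h2, h3 | h3⟩
      · exact h3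
      · rw [h3, G.lf_op, h] at h2
        simp at h2
    · rintro rfl
      exact ⟨h, Or.inl rfl⟩
  have h2 : ({i} : Finset P).powerset = {∅, {i}} := by
    ext S
    simp [Finset.subset_singleton_iff]
  rw [W_eq, h1, h2, Finset.sum_pair (by simp)]
  simp

theorem two_a (i : P) : Two G {i, G.op i} (G.op i) i (G.op i) i ∅ :=
  ⟨[G.op i], [i], seg_one' (ex_empty _), seg_one' (ex_empty _), nodup_pair' i, cover_pair' i,
    fun j hj => absurd hj (Finset.notMem_empty j)⟩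

theorem two_b (i : P) : Two G {i, G.op i} i (G.op i) i (G.op i) ∅ :=
  ⟨[i], [G.op i], seg_one' (ex_empty _), seg_one' (ex_empty _), nodup_pair i, cover_pair i,
    fun j hj => absurd hj (Finset.notMem_empty j)⟩

theorem two_c (i : P) : Two G {i, G.op i} i (G.op i) (G.op i) i {i} :=
  ⟨[i], [G.op i], seg_one' (ex_single i), seg_one' (ex_single' i), nodup_pair i, cover_pair i,
    fun j hj => by
      rw [Finset.mem_singleton.1 hj]
      exact List.Sublist.refl _⟩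

theorem not_two_d (i : P) : ¬ Two G {i, G.op i} (G.op i) i i (G.op i) {i} := by
  rintro ⟨l, m, h1, h2, h3, _, h5⟩
  obtain ⟨e1, e2, _, _⟩ := seg_unique (G := G) (S := {i}) (x := G.op i) (y := i) (l := [G.op i]) (m := [i])
    (seg_one' (ex_single' i)) (seg_one' (ex_single i)) (nodup_pair' i) h1 h2 h3 (Or.inl ⟨rfl, rfl⟩)
  subst e1
  subst e2
  have h6 := (h5 i (Finset.mem_singleton_self i)).eq_of_length (by simp)
  simp at h6
  exact G.op_ne i h6.1.symm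

theorem not_two_e (i : P) : ¬ Two G {i, G.op i} (G.op i) i (G.op i) i {i} := by
  rintro ⟨l, m, h1, h2, h3, _, h5⟩
  obtain ⟨_, _, e3, _⟩ := seg_unique (G := G) (S := {i}) (x := G.op i) (y := i) (l := [G.op i]) (m := [i])
    (seg_one' (ex_single' i)) (seg_one' (ex_single i)) (nodup_pair' i) h1 h2 h3 (Or.inr ⟨rfl, rfl⟩)
  exact G.op_ne i e3

theorem isPar_crossing {i : P} (h : G.lf i = true) : IsPar G {i, G.op i} (G.op i) i (G.op i) i := by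
  have hne := G.op_ne i
  refine ⟨isTangle_crossing i, 1, 0, 1, PI.base, ?_, ?_, ?_, ?_⟩
  · rw [W_crossing h, if_neg (fun h2 => two_excl hne (two_a i) h2), if_neg (not_two_d i)]
    simp [lp]
  · rw [W_crossing h, if_neg (fun h2 => two_excl hne h2 (two_b i)), if_pos (two_c i)]
    simp [lp]
  · rw [W_crossing h, if_pos (two_a i), if_neg (not_two_e i)]
    simp [lp]
  · rw [W_crossing h, if_pos (two_b i), if_neg (fun h2 => two_excl hne (two_c i) h2)]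
    simp [lp]

/-! ### The induction -/

/-- The invariant of an algebraic tangle, for the six possible directions of the four ends. -/
def Good (G : Shadow P) (A : Finset P) (h₁ h₂ h₃ h₄ : P × Bool) : Prop :=
  (h₁.2 = false ∧ h₂.2 = false ∧ h₃.2 = true ∧ h₄.2 = true ∧ IsPar G A h₁.1 h₂.1 h₃.1 h₄.1) ∨
  (h₁.2 = true ∧ h₂.2 = false ∧ h₃.2 = false ∧ h₄.2 = true ∧ IsPar G A h₂.1 h₃.1 h₄.1 h₁.1) ∨
  (h₁.2 = true ∧ h₂.2 = true ∧ h₃.2 = false ∧ h₄.2 = false ∧ IsPar G A h₃.1 h₄.1 h₁.1 h₂.1) ∨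
  (h₁.2 = false ∧ h₂.2 = true ∧ h₃.2 = true ∧ h₄.2 = false ∧ IsPar G A h₄.1 h₁.1 h₂.1 h₃.1) ∨
  (h₁.2 = false ∧ h₂.2 = true ∧ h₃.2 = false ∧ h₄.2 = true ∧ IsAlt G A h₁.1 h₃.1 h₂.1 h₄.1) ∨
  (h₁.2 = true ∧ h₂.2 = false ∧ h₃.2 = true ∧ h₄.2 = false ∧ IsAlt G A h₂.1 h₄.1 h₃.1 h₁.1)

theorem Good.rot {A : Finset P} {h₁ h₂ h₃ h₄ : P × Bool} (h : Good G A h₁ h₂ h₃ h₄) :
    Good G A h₂ h₃ h₄ h₁ := by
  rcases h with ⟨d1, d2, d3, d4, h⟩ | ⟨d1, d2, d3, d4, h⟩ | ⟨d1, d2, d3, d4, h⟩ |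
    ⟨d1, d2, d3, d4, h⟩ | ⟨d1, d2, d3, d4, h⟩ | ⟨d1, d2, d3, d4, h⟩
  · exact Or.inr (Or.inr (Or.inr (Or.inl ⟨d2, d3, d4, d1, h⟩)))
  · exact Or.inl ⟨d2, d3, d4, d1, h⟩
  · exact Or.inr (Or.inl ⟨d2, d3, d4, d1, h⟩)
  · exact Or.inr (Or.inr (Or.inl ⟨d2, d3, d4, d1, h⟩))
  · exact Or.inr (Or.inr (Or.inr (Or.inr (Or.inr ⟨d2, d3, d4, d1, h.symm.symm'⟩))))
  · exact Or.inr (Or.inr (Or.inr (Or.inr (Or.inl ⟨d2, d3, d4, d1, h⟩))))

theorem Good.sum {A B : Finset P} {a₁ a₂ a₃ a₄ b₁ b₂ b₃ b₄ : P × Bool} (hA : Good G A a₁ a₂ a₃ a₄)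
    (hB : Good G B b₁ b₂ b₃ b₄) (hAB : Disjoint A B) (h₁ : G.mate a₄ = b₁) (h₂ : G.mate a₃ = b₂) :
    Good G (A ∪ B) a₁ a₂ b₃ b₄ := by
  obtain ⟨a₁, s₁⟩ := a₁
  obtain ⟨a₂, s₂⟩ := a₂
  obtain ⟨a₃, s₃⟩ := a₃
  obtain ⟨a₄, s₄⟩ := a₄
  obtain ⟨b₁, t₁⟩ := b₁
  obtain ⟨b₂, t₂⟩ := b₂
  obtain ⟨b₃, t₃⟩ := b₃
  obtain ⟨b₄, t₄⟩ := b₄
  unfold Good at hA hB
  simp only at hA hB
  have hcomm : A ∪ B = B ∪ A := Finset.union_comm A B
  rcases hA with ⟨rfl, rfl, rfl, rfl, hA⟩ | ⟨rfl, rfl, rfl, rfl, hA⟩ | ⟨rfl, rfl, rfl, rfl, hA⟩ |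
    ⟨rfl, rfl, rfl, rfl, hA⟩ | ⟨rfl, rfl, rfl, rfl, hA⟩ | ⟨rfl, rfl, rfl, rfl, hA⟩ <;>
  rcases hB with ⟨rfl, rfl, rfl, rfl, hB⟩ | ⟨rfl, rfl, rfl, rfl, hB⟩ | ⟨rfl, rfl, rfl, rfl, hB⟩ |
    ⟨rfl, rfl, rfl, rfl, hB⟩ | ⟨rfl, rfl, rfl, rfl, hB⟩ | ⟨rfl, rfl, rfl, rfl, hB⟩ <;>
  simp only [Shadow.mate, if_true, if_false, Prod.mk.injEq, reduceCtorEq, and_false, and_true,
    Bool.false_eq_true] at h₁ h₂
  · -- P0 + P0
    subst h₁
    subst h₂
    exact Or.inl ⟨rfl, rfl, rfl, rfl, par_prod hA hB hAB⟩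
  · -- P1 + P3
    rw [Equiv.symm_apply_eq] at h₂
    exact Or.inr (Or.inr (Or.inr (Or.inr (Or.inr ⟨rfl, rfl, rfl, rfl,
      (par_par hA hB hAB h₁ h₂.symm).symm'⟩))))
  · -- P1 + A0
    rw [Equiv.symm_apply_eq] at h₂
    exact Or.inr (Or.inl ⟨rfl, rfl, rfl, rfl, par_alt hA hB.symm.symm' hAB h₁ h₂.symm⟩)
  · -- P2 + P2
    rw [Equiv.symm_apply_eq] at h₁ h₂
    subst h₁
    subst h₂
    rw [hcomm]
    exact Or.inr (Or.inr (Or.inl ⟨rfl, rfl, rfl, rfl, par_prod hB hA hAB.symm⟩))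
  · -- P3 + P1
    rw [Equiv.symm_apply_eq] at h₁
    exact Or.inr (Or.inr (Or.inr (Or.inr (Or.inl ⟨rfl, rfl, rfl, rfl,
      par_par' hA hB hAB h₂ h₁.symm⟩))))
  · -- P3 + A1
    rw [Equiv.symm_apply_eq] at h₁
    exact Or.inr (Or.inr (Or.inr (Or.inl ⟨rfl, rfl, rfl, rfl,
      par_alt' hA hB.symm hAB h₂ h₁.symm⟩)))
  · -- A0 + P3
    rw [Equiv.symm_apply_eq] at h₂
    rw [hcomm]
    exact Or.inr (Or.inr (Or.inr (Or.inl ⟨rfl, rfl, rfl, rfl,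
      par_alt hB hA hAB.symm h₂.symm h₁⟩)))
  · -- A0 + A0
    rw [Equiv.symm_apply_eq] at h₂
    exact Or.inr (Or.inr (Or.inr (Or.inr (Or.inl ⟨rfl, rfl, rfl, rfl,
      alt_alt hA hB.symm.symm' hAB h₁ h₂.symm⟩))))
  · -- A1 + P1
    rw [Equiv.symm_apply_eq] at h₁
    rw [hcomm]
    exact Or.inr (Or.inl ⟨rfl, rfl, rfl, rfl, par_alt' hB hA.symm' hAB.symm h₁.symm h₂⟩)
  · -- A1 + A1
    rw [Equiv.symm_apply_eq] at h₁
    exact Or.inr (Or.inr (Or.inr (Or.inr (Or.inr ⟨rfl, rfl, rfl, rfl,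
      (alt_alt hA.symm' hB.symm hAB h₂ h₁.symm).symm'⟩))))

theorem good_of_alg {A : Finset P} {h₁ h₂ h₃ h₄ : P × Bool} (h : G.Alg A h₁ h₂ h₃ h₄) :
    Good G A h₁ h₂ h₃ h₄ := by
  induction h with
  | crossing i h => exact Or.inr (Or.inl ⟨rfl, rfl, rfl, rfl, isPar_crossing h⟩)
  | rot _ ih => exact ih.rot
  | sum _ _ hAB h₁ h₂ ihA ihB => exact ihA.sum ihB hAB h₁ h₂

/-- The closure of an algebraic tangle: the values of one weight. -/
theorem closure_of_algebraic (h : G.Algebraic) : ∃ (x y e f : P), IsTangle G Finset.univ x y e f ∧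
    G.nxt e = y ∧ G.nxt f = x ∧ ∃ (m : ℤ) (q : ℚ[X]), Nn q ∧ q ≠ 0 ∧ Lc q ∧
      lp (W G Finset.univ x y e f) = T m * ev q := by
  obtain ⟨⟨h₁, s₁⟩, ⟨h₂, s₂⟩, ⟨h₃, s₃⟩, ⟨h₄, s₄⟩, hG, e1, e2⟩ := h
  have alt : ∀ {x y e f : P}, IsAlt G Finset.univ x y e f → G.nxt e = y → G.nxt f = x →
      ∃ (x y e f : P), IsTangle G Finset.univ x y e f ∧
        G.nxt e = y ∧ G.nxt f = x ∧ ∃ (m : ℤ) (q : ℚ[X]), Nn q ∧ q ≠ 0 ∧ Lc q ∧
          lp (W G Finset.univ x y e f) = T m * ev q := by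
    rintro x y e f ⟨ht, _, _, ⟨n, g, d, hp, rfl, rfl⟩, a1, _, _, _⟩ h1 h2
    exact ⟨x, y, e, f, ht, h1, h2, n, g, hp.ng, hp.g0, hp.lg, a1⟩
  have par : ∀ {x y e f : P}, IsPar G Finset.univ x y e f → G.nxt e = y → G.nxt f = x →
      ∃ (x y e f : P), IsTangle G Finset.univ x y e f ∧
        G.nxt e = y ∧ G.nxt f = x ∧ ∃ (m : ℤ) (q : ℚ[X]), Nn q ∧ q ≠ 0 ∧ Lc q ∧
          lp (W G Finset.univ x y e f) = T m * ev q := by
    rintro x y e f ⟨ht, n, a, b, hp, _, _, a3, _⟩ h1 h2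
    exact ⟨x, y, e, f, ht, h1, h2, n - 1, b, hp.nb, hp.b0, hp.lb, a3⟩
  have hg := good_of_alg hG
  unfold Good at hg
  simp only at hg
  rcases hg with ⟨rfl, rfl, rfl, rfl, hg⟩ | ⟨rfl, rfl, rfl, rfl, hg⟩ | ⟨rfl, rfl, rfl, rfl, hg⟩ |
    ⟨rfl, rfl, rfl, rfl, hg⟩ | ⟨rfl, rfl, rfl, rfl, hg⟩ | ⟨rfl, rfl, rfl, rfl, hg⟩ <;>
  simp only [Shadow.mate, if_true, if_false, Prod.mk.injEq, reduceCtorEq, and_false, and_true,
    Bool.false_eq_true, Equiv.symm_apply_eq] at e1 e2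
  · exact par hg e2.symm e1.symm
  · exact par hg e1 e2
  · exact alt hg e2 e1.symm
  · exact alt hg.symm' e1 e2.symm

end Pool.Agent.Helper29.Arb
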