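import Pool.Agent.Helper29.Arb.Defs

/-!
# Segments: concatenation, determinism, uniqueness of the strands of a state
-/

set_option autoImplicit false

namespace Pool.Agent.Helper29.Arb

variable {P : Type} [DecidableEq P] {G : Shadow P}

theorem ex_ex (S : Finset P) (i : P) : ex G S (ex G S i) = i := by
  unfold ex
  by_cases h : i ∈ S ∨ G.op i ∈ S
  · rw [if_pos h]
    have h' : G.op i ∈ S ∨ G.op (G.op i) ∈ S := by
      rw [G.op_op]
      exact h.symm
    rw [if_pos h', G.op_op]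
  · rw [if_neg h, if_neg h]

theorem ex_inj (S : Finset P) {i j : P} (h : ex G S i = ex G S j) : i = j := by
  rw [← ex_ex (G := G) S i, h, ex_ex]

theorem ex_mem {A : Finset P} (hA : ∀ i ∈ A, G.op i ∈ A) (S : Finset P) {i : P} (hi : i ∈ A) :
    ex G S i ∈ A := by
  unfold ex
  split_ifs
  · exact hA i hi
  · exact hi

theorem ex_inter {A : Finset P} (hA : ∀ i ∈ A, G.op i ∈ A) (S : Finset P) {i : P} (hi : i ∈ A) :
    ex G (S ∩ A) i = ex G S i := by
  unfold ex
  have h : (i ∈ S ∩ A ∨ G.op i ∈ S ∩ A) ↔ (i ∈ S ∨ G.op i ∈ S) := by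
    simp [hi, hA i hi]
  simp only [h]

theorem Seg.congr {S T : Finset P} {x e : P} {l : List P} (h : Seg G S x l e)
    (hl : ∀ p ∈ l, ex G S p = ex G T p) : Seg G T x l e := by
  induction h with
  | one x =>
    rw [hl x (by simp)]
    exact Seg.one x
  | cons x h ih =>
    apply Seg.cons
    rw [← hl x (by simp)]
    exact ih fun p hp => hl p (List.mem_cons_of_mem _ hp)

theorem Seg.append {S : Finset P} {x e f : P} {l m : List P} (h : Seg G S x l e)
    (h' : Seg G S (G.nxt e) m f) : Seg G S x (l ++ m) f := by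
  induction h with
  | one x => exact Seg.cons x h'
  | cons x h ih => exact Seg.cons x (ih h')

theorem Seg.head_mem {S : Finset P} {x e : P} {l : List P} (h : Seg G S x l e) : x ∈ l := by
  cases h <;> simp

theorem Seg.ne_nil {S : Finset P} {x e : P} {l : List P} (h : Seg G S x l e) : l ≠ [] :=
  List.ne_nil_of_mem h.head_mem

theorem Seg.last {S : Finset P} {x e : P} {l : List P} (h : Seg G S x l e) :
    ∃ l₀ p, l = l₀ ++ [p] ∧ e = ex G S p := by
  induction h with
  | one x => exact ⟨[], x, rfl, rfl⟩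
  | cons x h ih =>
    obtain ⟨l₀, p, h1, h2⟩ := ih
    exact ⟨x :: l₀, p, by rw [h1]; rfl, h2⟩

theorem Seg.exit {S : Finset P} {x e : P} {l : List P} (h : Seg G S x l e) :
    ∃ p ∈ l, ex G S p = e := by
  obtain ⟨l₀, p, rfl, rfl⟩ := h.last
  exact ⟨p, by simp, rfl⟩

theorem Seg.exit_mem {A : Finset P} (hA : ∀ i ∈ A, G.op i ∈ A) {S : Finset P} {x e : P} {l : List P}
    (h : Seg G S x l e) (hl : ∀ p ∈ l, p ∈ A) : e ∈ A := by
  obtain ⟨p, hp, rfl⟩ := h.exit
  exact ex_mem hA S (hl p hp)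

/-- Two segments from the same passage: one is an initial part of the other. -/
theorem Seg.compare {S : Finset P} {x e e' : P} {l l' : List P} (h : Seg G S x l e)
    (h' : Seg G S x l' e') : (l = l' ∧ e = e') ∨ (∃ R, R ≠ [] ∧ l' = l ++ R) ∨ (∃ R, R ≠ [] ∧ l = l' ++ R) := by
  induction h generalizing l' with
  | one x =>
    cases h' with
    | one _ => exact Or.inl ⟨rfl, rfl⟩
    | cons _ h2 => exact Or.inr (Or.inl ⟨_, h2.ne_nil, rfl⟩)
  | cons x h ih =>
    cases h' with
    | one _ => exact Or.inr (Or.inr ⟨_, h.ne_nil, rfl⟩)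
    | cons _ h2 =>
      rcases ih h2 with ⟨h3, h4⟩ | ⟨R, h3, h4⟩ | ⟨R, h3, h4⟩
      · exact Or.inl ⟨by rw [h3], h4⟩
      · exact Or.inr (Or.inl ⟨R, h3, by rw [h4]; rfl⟩)
      · exact Or.inr (Or.inr ⟨R, h3, by rw [h4]; rfl⟩)

/-- A list without repetitions which ends with the exit `e` has no proper initial part with the exit `e`. -/
theorem seg_not_prefix {S : Finset P} {x e : P} {l R : List P} (h : Seg G S x l e)
    (hR : R ≠ []) (hnd : (l ++ R).Nodup) (h' : Seg G S x (l ++ R) e) : False := by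
  obtain ⟨p, hp, hpe⟩ := h.exit
  obtain ⟨l₀, q, h1, h2⟩ := h'.last
  have hpq : p = q := ex_inj S (hpe.trans h2)
  subst hpq
  obtain ⟨R₀, r, hr⟩ : ∃ R₀ r, R = R₀ ++ [r] := ⟨R.dropLast, R.getLast hR, (List.dropLast_append_getLast hR).symm⟩
  subst hr
  rw [← List.append_assoc] at h1
  have h3 := (List.append_inj' h1 rfl).2
  have h4 : r = p := by simpa using h3
  subst h4
  exact (List.nodup_append.1 hnd).2.2 _ hp _ (by simp) rfl

/-- Uniqueness of the two strands of a state. -/
theorem seg_unique {S : Finset P} {x y e f e' f' : P} {l m l' m' : List P}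
    (hl : Seg G S x l e) (hm : Seg G S y m f) (hn : (l ++ m).Nodup)
    (hl' : Seg G S x l' e') (hm' : Seg G S y m' f') (hn' : (l' ++ m').Nodup)
    (hef : (e' = e ∧ f' = f) ∨ (e' = f ∧ f' = e)) : l' = l ∧ m' = m ∧ e' = e ∧ f' = f := by
  have hne : e ≠ f := by
    rintro rfl
    obtain ⟨p, hp, hpe⟩ := hl.exit
    obtain ⟨q, hq, hqe⟩ := hm.exit
    exact (List.nodup_append.1 hn).2.2 p hp q hq (ex_inj S (hpe.trans hqe.symm))
  have hne' : e' ≠ f' := by
    rcases hef with ⟨h1, h2⟩ | ⟨h1, h2⟩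
    · rw [h1, h2]; exact hne
    · rw [h1, h2]; exact hne.symm
  -- a proper initial part is impossible
  have key : ∀ (x y e f e' f' : P) (l m l' m' : List P), Seg G S x l e → Seg G S x l' e' →
      Seg G S y m' f' → (l' ++ m').Nodup → ((e' = e) ∨ (f' = e)) → ∀ R, R ≠ [] → l' = l ++ R →
      False := by
    intro x y e f e' f' l m l' m' hl hl' hm' hn' he R hR hR'
    rcases he with h1 | h1
    · subst h1
      subst hR'
      exact seg_not_prefix hl hR (List.nodup_append.1 hn').1 hl'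
    · subst h1
      obtain ⟨p, hp, hpe⟩ := hl.exit
      obtain ⟨q, hq, hqe⟩ := hm'.exit
      refine (List.nodup_append.1 hn').2.2 p ?_ q hq (ex_inj S (hpe.trans hqe.symm))
      rw [hR']
      exact List.mem_append_left _ hp
  have e1 : l' = l ∧ e' = e := by
    rcases hl.compare hl' with ⟨h1, h2⟩ | ⟨R, h1, h2⟩ | ⟨R, h1, h2⟩
    · exact ⟨h1.symm, h2.symm⟩
    · exfalso
      apply key x y e f e' f' l m l' m' hl hl' hm' hn' _ R h1 h2
      rcases hef with ⟨h3, _⟩ | ⟨_, h4⟩
      · exact Or.inl h3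
      · exact Or.inr h4
    · exfalso
      apply key x y e' f' e f l' m' l m hl' hl hm hn _ R h1 h2
      rcases hef with ⟨h3, _⟩ | ⟨h3, _⟩
      · exact Or.inl h3.symm
      · exact Or.inr h3.symm
  obtain ⟨h1, h2⟩ := e1
  have h3 : f' = f := by
    rcases hef with ⟨_, h4⟩ | ⟨h4, h5⟩
    · exact h4
    · exact absurd (h2.symm.trans h4) hne
  refine ⟨h1, ?_, h2, h3⟩
  subst h3
  rcases hm.compare hm' with ⟨h4, _⟩ | ⟨R, h4, h5⟩ | ⟨R, h4, h5⟩
  · exact h4.symm
  · exfalso
    subst h5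
    exact seg_not_prefix hm h4 (List.nodup_append.1 hn').2.1 hm'
  · exfalso
    subst h5
    exact seg_not_prefix hm' h4 (List.nodup_append.1 hn).2.1 hm

/-! ### Ascending lists -/

theorem ascL_congr_union {A B S : Finset P} {Z l m : List P} (hA : ∀ i ∈ A, G.op i ∈ A)
    (hB : ∀ i ∈ B, G.op i ∈ B) (hS : S ⊆ A ∪ B) (hl : Z.filter (fun p => p ∈ A) = l)
    (hm : Z.filter (fun p => p ∈ B) = m) :
    AscL G S Z ↔ AscL G (S ∩ A) l ∧ AscL G (S ∩ B) m := by
  have key : ∀ (C : Finset P), (∀ i ∈ C, G.op i ∈ C) → ∀ i ∈ C,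
      ([i, G.op i].Sublist (Z.filter (fun p => p ∈ C)) ↔ [i, G.op i].Sublist Z) := by
    intro C hC i hi
    constructor
    · intro h
      exact h.trans List.filter_sublist
    · intro h
      have h2 := h.filter (fun p => decide (p ∈ C))
      have h3 : [i, G.op i].filter (fun p => decide (p ∈ C)) = [i, G.op i] := by
        simp [hi, hC i hi]
      rwa [h3] at h2
  subst hl
  subst hm
  constructor
  · intro h
    refine ⟨fun i hi => ?_, fun i hi => ?_⟩
    · rw [Finset.mem_inter] at hi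
      exact (key A hA i hi.2).2 (h i hi.1)
    · rw [Finset.mem_inter] at hi
      exact (key B hB i hi.2).2 (h i hi.1)
  · rintro ⟨h1, h2⟩ i hi
    rcases Finset.mem_union.1 (hS hi) with h3 | h3
    · exact (key A hA i h3).1 (h1 i (Finset.mem_inter.2 ⟨hi, h3⟩))
    · exact (key B hB i h3).1 (h2 i (Finset.mem_inter.2 ⟨hi, h3⟩))

theorem filter_all {A : Finset P} {l : List P} (hl : ∀ p ∈ l, p ∈ A) :
    l.filter (fun p => p ∈ A) = l := by
  rw [List.filter_eq_self]
  intro p hp
  simpa using hl p hp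

theorem filter_none {A B : Finset P} (hAB : Disjoint A B) {l : List P} (hl : ∀ p ∈ l, p ∈ B) :
    l.filter (fun p => p ∈ A) = [] := by
  rw [List.filter_eq_nil_iff]
  intro p hp h
  exact (Finset.disjoint_left.1 hAB) (by simpa using h) (hl p hp)

theorem IsTangle.symm {A : Finset P} {x y e f : P} (h : IsTangle G A x y e f) :
    IsTangle G A y x e f where
  op_mem := h.op_mem
  ne := h.ne
  strands S hS := by
    obtain ⟨l, m, h1, h2, h3⟩ := h.strands S hS
    refine ⟨m, l, ?_, ?_, ?_⟩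
    · exact List.nodup_append_comm.1 h1
    · intro p hp
      exact h2 p (by simpa [or_comm] using hp)
    · rcases h3 with ⟨h3, h4⟩ | ⟨h3, h4⟩
      · exact Or.inr ⟨h4, h3⟩
      · exact Or.inl ⟨h4, h3⟩

theorem IsTangle.symm' {A : Finset P} {x y e f : P} (h : IsTangle G A x y e f) :
    IsTangle G A x y f e where
  op_mem := h.op_mem
  ne := h.ne.symm
  strands S hS := by
    obtain ⟨l, m, h1, h2, h3⟩ := h.strands S hS
    exact ⟨l, m, h1, h2, h3.symm⟩

end Pool.Agent.Helper29.Arb
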