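import Pool.Agent.Helper29.Arb.Glue
import Pool.Agent.Helper2.Arb.Pairs

/-!
# The orientation types of algebraic tangles and their weights
-/

set_option autoImplicit false

namespace Pool.Agent.Helper29.Arb

open Polynomial LaurentPolynomial Pool.Agent.Helper2.Arb

/-- A polynomial in `z` as a Laurent polynomial with rational coefficients. -/
noncomputable def lp (p : ℤ[X]) : ℚ[T;T⁻¹] := toLaurent (p.map (Int.castRingHom ℚ))

/-- Substitution of `z⁻²` for the variable. -/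
noncomputable def ev : ℚ[X] →+* ℚ[T;T⁻¹] := Polynomial.eval₂RingHom LaurentPolynomial.C (T (-2))

theorem ev_X : ev X = T (-2) := by
  simp [ev]

theorem lp_add (p q : ℤ[X]) : lp (p + q) = lp p + lp q := by
  rw [lp, lp, lp, Polynomial.map_add, map_add]

theorem lp_mul (p q : ℤ[X]) : lp (p * q) = lp p * lp q := by
  rw [lp, lp, lp, Polynomial.map_mul, map_mul]

theorem T_mul_T (m n k : ℤ) (h : m + n = k) : (T m : ℚ[T;T⁻¹]) * T n = T k := by
  rw [← T_add, h]

section

variable {P : Type} [Fintype P] [DecidableEq P] {G : Shadow P}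

/-- Parallel ends: in the counterclockwise order two entries `x, y` and two exits `e, f`. -/
def IsPar (G : Shadow P) (A : Finset P) (x y e f : P) : Prop :=
  IsTangle G A x y e f ∧ ∃ (n : ℤ) (a b : ℚ[X]), PI a b ∧
    lp (W G A x y f e) = T n * ev a ∧ lp (W G A y x e f) = T n * ev (a + b) ∧
    lp (W G A x y e f) = T (n - 1) * ev b ∧ lp (W G A y x f e) = T (n - 1) * ev b

/-- A pair of values of a tangle with alternating ends. -/
def Alt (V H : ℚ[T;T⁻¹]) : Prop :=
  ∃ (n : ℤ) (g d : ℚ[X]), AI g d ∧ V = T n * ev g ∧ H = T (n - 1) * ev d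

theorem Alt.swap {V H : ℚ[T;T⁻¹]} (h : Alt V H) : Alt H V := by
  obtain ⟨n, g, d, h1, h2, h3⟩ := h
  refine ⟨n + 1, X * d, g, h1.rot, ?_, ?_⟩
  · rw [h3, map_mul, ev_X, ← mul_assoc, T_mul_T (n + 1) (-2) (n - 1) (by ring)]
  · rw [h2, add_sub_cancel_right]

/-- Alternating ends: in the cyclic order entry `x`, exit `e`, entry `y`, exit `f`. -/
def IsAlt (G : Shadow P) (A : Finset P) (x y e f : P) : Prop :=
  IsTangle G A x y e f ∧ ∃ V H : ℚ[T;T⁻¹], Alt V H ∧
    lp (W G A x y e f) = V ∧ lp (W G A y x f e) = V ∧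
    lp (W G A x y f e) = H ∧ lp (W G A y x e f) = H

theorem IsAlt.symm {A : Finset P} {x y e f : P} (h : IsAlt G A x y e f) : IsAlt G A y x e f := by
  obtain ⟨ht, V, H, h0, h1, h2, h3, h4⟩ := h
  exact ⟨ht.symm, H, V, h0.swap, h4, h3, h2, h1⟩

theorem IsAlt.symm' {A : Finset P} {x y e f : P} (h : IsAlt G A x y e f) : IsAlt G A x y f e := by
  obtain ⟨ht, V, H, h0, h1, h2, h3, h4⟩ := h
  exact ⟨ht.symm', H, V, h0.swap, h3, h4, h1, h2⟩

/-! ### The two ways of gluing -/

variable {A B : Finset P} {x y e f x' y' e' f' : P}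

theorem par_alt (hA : IsPar G A x y f e) (hB : IsAlt G B x' y' e' f') (hAB : Disjoint A B)
    (hy' : G.nxt f = y') (hy : G.nxt f' = y) : IsPar G (A ∪ B) x x' e' e := by
  obtain ⟨tA, n, a, b, hp, a1, a2, a3, a4⟩ := hA
  obtain ⟨tB, V, H, ⟨m, g, d, hq, rfl, rfl⟩, b1, b2, b3, b4⟩ := hB
  have tA' := tA.symm'
  have c1 := W_K1_same tA' tB hAB hy' hy
  have c2 := W_K1_cross tA' tB hAB hy' hy
  have c3 := W_K1_same tB tA' hAB.symm hy hy'
  have c4 := W_K1_cross tB tA' hAB.symm hy hy'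
  rw [Finset.union_comm] at c3 c4
  refine ⟨(isTangle_K1 tA' tB hAB hy' hy).symm', n + m - 1, b * g + a * d, b * d, hp.addA hq, ?_, ?_, ?_, ?_⟩
  · rw [c1, lp_add, lp_mul, lp_mul, a1, b3, a3, b2, map_add, map_mul, map_mul]
    rw [show T n * ev a * (T (m - 1) * ev d) = (T n * T (m - 1)) * (ev a * ev d) by ring,
      show T (n - 1) * ev b * (T m * ev g) = (T (n - 1) * T m) * (ev b * ev g) by ring,
      T_mul_T n (m - 1) (n + m - 1) (by ring), T_mul_T (n - 1) m (n + m - 1) (by ring)]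
    ring
  · rw [c3, lp_add, lp_mul, lp_mul, b1, a3, b3, a2, map_add, map_add, map_add, map_mul, map_mul, map_mul]
    rw [show T m * ev g * (T (n - 1) * ev b) = (T (n - 1) * T m) * (ev b * ev g) by ring,
      show T (m - 1) * ev d * (T n * (ev a + ev b)) = (T n * T (m - 1)) * ((ev a + ev b) * ev d) by ring,
      T_mul_T n (m - 1) (n + m - 1) (by ring), T_mul_T (n - 1) m (n + m - 1) (by ring)]
    ring
  · rw [c2, lp_mul, a3, b4, map_mul,
      show T (n - 1) * ev b * (T (m - 1) * ev d) = (T (n - 1) * T (m - 1)) * (ev b * ev d) by ring,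
      T_mul_T (n - 1) (m - 1) (n + m - 1 - 1) (by ring)]
  · rw [c4, lp_mul, a4, b3, map_mul,
      show T (m - 1) * ev d * (T (n - 1) * ev b) = (T (n - 1) * T (m - 1)) * (ev b * ev d) by ring,
      T_mul_T (n - 1) (m - 1) (n + m - 1 - 1) (by ring)]

theorem par_alt' (hA : IsPar G A y x e f) (hB : IsAlt G B x' y' e' f') (hAB : Disjoint A B)
    (hy' : G.nxt f = y') (hy : G.nxt f' = y) : IsPar G (A ∪ B) x' x e e' := by
  obtain ⟨tA, n, a, b, hp, a1, a2, a3, a4⟩ := hA
  obtain ⟨tB, V, H, ⟨m, g, d, hq, rfl, rfl⟩, b1, b2, b3, b4⟩ := hB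
  have tA' := tA.symm
  have c1 := W_K1_same tA' tB hAB hy' hy
  have c2 := W_K1_cross tA' tB hAB hy' hy
  have c3 := W_K1_same tB tA' hAB.symm hy hy'
  have c4 := W_K1_cross tB tA' hAB.symm hy hy'
  rw [Finset.union_comm] at c3 c4
  refine ⟨(isTangle_K1 tA' tB hAB hy' hy).symm, n + m - 1, b * g + a * d, b * d, hp.addA hq, ?_, ?_, ?_, ?_⟩
  · rw [c3, lp_add, lp_mul, lp_mul, b1, a4, b3, a1, map_add, map_mul, map_mul]
    rw [show T m * ev g * (T (n - 1) * ev b) = (T (n - 1) * T m) * (ev b * ev g) by ring,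
      show T (m - 1) * ev d * (T n * ev a) = (T n * T (m - 1)) * (ev a * ev d) by ring,
      T_mul_T n (m - 1) (n + m - 1) (by ring), T_mul_T (n - 1) m (n + m - 1) (by ring)]
    ring
  · rw [c1, lp_add, lp_mul, lp_mul, a2, b3, a4, b2, map_add, map_add, map_add, map_mul, map_mul, map_mul]
    rw [show T n * (ev a + ev b) * (T (m - 1) * ev d) = (T n * T (m - 1)) * ((ev a + ev b) * ev d) by ring,
      show T (n - 1) * ev b * (T m * ev g) = (T (n - 1) * T m) * (ev b * ev g) by ring,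
      T_mul_T n (m - 1) (n + m - 1) (by ring), T_mul_T (n - 1) m (n + m - 1) (by ring)]
    ring
  · rw [c4, lp_mul, a3, b3, map_mul,
      show T (m - 1) * ev d * (T (n - 1) * ev b) = (T (n - 1) * T (m - 1)) * (ev b * ev d) by ring,
      T_mul_T (n - 1) (m - 1) (n + m - 1 - 1) (by ring)]
  · rw [c2, lp_mul, a4, b4, map_mul,
      show T (n - 1) * ev b * (T (m - 1) * ev d) = (T (n - 1) * T (m - 1)) * (ev b * ev d) by ring,
      T_mul_T (n - 1) (m - 1) (n + m - 1 - 1) (by ring)]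

theorem par_par (hA : IsPar G A x y f e) (hB : IsPar G B x' y' f' e') (hAB : Disjoint A B)
    (hy' : G.nxt f = y') (hy : G.nxt f' = y) : IsAlt G (A ∪ B) x x' e e' := by
  obtain ⟨tA, n, a, b, hp, a1, a2, a3, a4⟩ := hA
  obtain ⟨tB, m, a', b', hq, b1, b2, b3, b4⟩ := hB
  have tA' := tA.symm'
  have tB' := tB.symm'
  have c1 := W_K1_same tA' tB' hAB hy' hy
  have c2 := W_K1_cross tA' tB' hAB hy' hy
  have c3 := W_K1_same tB' tA' hAB.symm hy hy'
  have c4 := W_K1_cross tB' tA' hAB.symm hy hy'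
  rw [Finset.union_comm] at c3 c4
  refine ⟨isTangle_K1 tA' tB' hAB hy' hy, _, _,
    ⟨n + m - 1, a * b' + b * a' + b * b', b * b', hp.sum hq, rfl, rfl⟩, ?_, ?_, ?_, ?_⟩
  · rw [c1, lp_add, lp_mul, lp_mul, a1, b3, a3, b2]
    simp only [map_add, map_mul]
    rw [show T n * ev a * (T (m - 1) * ev b') = (T n * T (m - 1)) * (ev a * ev b') by ring,
      show T (n - 1) * ev b * (T m * (ev a' + ev b')) = (T (n - 1) * T m) * (ev b * (ev a' + ev b')) by ring,
      T_mul_T n (m - 1) (n + m - 1) (by ring), T_mul_T (n - 1) m (n + m - 1) (by ring)]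
    ring
  · rw [c3, lp_add, lp_mul, lp_mul, b1, a3, b3, a2]
    simp only [map_add, map_mul]
    rw [show T m * ev a' * (T (n - 1) * ev b) = (T (n - 1) * T m) * (ev a' * ev b) by ring,
      show T (m - 1) * ev b' * (T n * (ev a + ev b)) = (T n * T (m - 1)) * (ev b' * (ev a + ev b)) by ring,
      T_mul_T n (m - 1) (n + m - 1) (by ring), T_mul_T (n - 1) m (n + m - 1) (by ring)]
    ring
  · rw [c2, lp_mul, a3, b4, map_mul,
      show T (n - 1) * ev b * (T (m - 1) * ev b') = (T (n - 1) * T (m - 1)) * (ev b * ev b') by ring,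
      T_mul_T (n - 1) (m - 1) (n + m - 1 - 1) (by ring)]
  · rw [c4, lp_mul, a4, b3, map_mul,
      show T (m - 1) * ev b' * (T (n - 1) * ev b) = (T (n - 1) * T (m - 1)) * (ev b * ev b') by ring,
      T_mul_T (n - 1) (m - 1) (n + m - 1 - 1) (by ring)]

theorem par_par' (hA : IsPar G A y x e f) (hB : IsPar G B y' x' e' f') (hAB : Disjoint A B)
    (hy' : G.nxt f = y') (hy : G.nxt f' = y) : IsAlt G (A ∪ B) x x' e e' := by
  obtain ⟨tA, n, a, b, hp, a1, a2, a3, a4⟩ := hA
  obtain ⟨tB, m, a', b', hq, b1, b2, b3, b4⟩ := hB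
  have tA' := tA.symm
  have tB' := tB.symm
  have c1 := W_K1_same tA' tB' hAB hy' hy
  have c2 := W_K1_cross tA' tB' hAB hy' hy
  have c3 := W_K1_same tB' tA' hAB.symm hy hy'
  have c4 := W_K1_cross tB' tA' hAB.symm hy hy'
  rw [Finset.union_comm] at c3 c4
  refine ⟨isTangle_K1 tA' tB' hAB hy' hy, _, _,
    ⟨n + m - 1, a * b' + b * a' + b * b', b * b', hp.sum hq, rfl, rfl⟩, ?_, ?_, ?_, ?_⟩
  · rw [c1, lp_add, lp_mul, lp_mul, a2, b4, a4, b1]
    simp only [map_add, map_mul]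
    rw [show T n * (ev a + ev b) * (T (m - 1) * ev b') = (T n * T (m - 1)) * ((ev a + ev b) * ev b') by ring,
      show T (n - 1) * ev b * (T m * ev a') = (T (n - 1) * T m) * (ev b * ev a') by ring,
      T_mul_T n (m - 1) (n + m - 1) (by ring), T_mul_T (n - 1) m (n + m - 1) (by ring)]
    ring
  · rw [c3, lp_add, lp_mul, lp_mul, b2, a4, b4, a1]
    simp only [map_add, map_mul]
    rw [show T m * (ev a' + ev b') * (T (n - 1) * ev b) = (T (n - 1) * T m) * ((ev a' + ev b') * ev b) by ring,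
      show T (m - 1) * ev b' * (T n * ev a) = (T n * T (m - 1)) * (ev b' * ev a) by ring,
      T_mul_T n (m - 1) (n + m - 1) (by ring), T_mul_T (n - 1) m (n + m - 1) (by ring)]
    ring
  · rw [c2, lp_mul, a4, b3, map_mul,
      show T (n - 1) * ev b * (T (m - 1) * ev b') = (T (n - 1) * T (m - 1)) * (ev b * ev b') by ring,
      T_mul_T (n - 1) (m - 1) (n + m - 1 - 1) (by ring)]
  · rw [c4, lp_mul, a3, b4, map_mul,
      show T (m - 1) * ev b' * (T (n - 1) * ev b) = (T (n - 1) * T (m - 1)) * (ev b * ev b') by ring,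
      T_mul_T (n - 1) (m - 1) (n + m - 1 - 1) (by ring)]

theorem alt_alt (hA : IsAlt G A x y e f) (hB : IsAlt G B x' y' e' f') (hAB : Disjoint A B)
    (hy' : G.nxt f = y') (hy : G.nxt f' = y) : IsAlt G (A ∪ B) x x' e e' := by
  obtain ⟨tA, V, H, ⟨n, g, d, hp, rfl, rfl⟩, a1, a2, a3, a4⟩ := hA
  obtain ⟨tB, V', H', ⟨m, g', d', hq, rfl, rfl⟩, b1, b2, b3, b4⟩ := hB
  have c1 := W_K1_same tA tB hAB hy' hy
  have c2 := W_K1_cross tA tB hAB hy' hy
  have c3 := W_K1_same tB tA hAB.symm hy hy'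
  have c4 := W_K1_cross tB tA hAB.symm hy hy'
  rw [Finset.union_comm] at c3 c4
  refine ⟨isTangle_K1 tA tB hAB hy' hy, _, _,
    ⟨n + m - 1, g * d' + d * g', d * d', hp.mul hq, rfl, rfl⟩, ?_, ?_, ?_, ?_⟩
  · rw [c1, lp_add, lp_mul, lp_mul, a1, b3, a3, b2]
    simp only [map_add, map_mul]
    rw [show T n * ev g * (T (m - 1) * ev d') = (T n * T (m - 1)) * (ev g * ev d') by ring,
      show T (n - 1) * ev d * (T m * ev g') = (T (n - 1) * T m) * (ev d * ev g') by ring,
      T_mul_T n (m - 1) (n + m - 1) (by ring), T_mul_T (n - 1) m (n + m - 1) (by ring)]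
    ring
  · rw [c3, lp_add, lp_mul, lp_mul, b1, a3, b3, a2]
    simp only [map_add, map_mul]
    rw [show T m * ev g' * (T (n - 1) * ev d) = (T (n - 1) * T m) * (ev g' * ev d) by ring,
      show T (m - 1) * ev d' * (T n * ev g) = (T n * T (m - 1)) * (ev d' * ev g) by ring,
      T_mul_T n (m - 1) (n + m - 1) (by ring), T_mul_T (n - 1) m (n + m - 1) (by ring)]
    ring
  · rw [c2, lp_mul, a3, b4, map_mul,
      show T (n - 1) * ev d * (T (m - 1) * ev d') = (T (n - 1) * T (m - 1)) * (ev d * ev d') by ring,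
      T_mul_T (n - 1) (m - 1) (n + m - 1 - 1) (by ring)]
  · rw [c4, lp_mul, a4, b3, map_mul,
      show T (m - 1) * ev d' * (T (n - 1) * ev d) = (T (n - 1) * T (m - 1)) * (ev d * ev d') by ring,
      T_mul_T (n - 1) (m - 1) (n + m - 1 - 1) (by ring)]

/-- The braid-like product: both exits of `A` enter `B`. -/
theorem par_prod (hA : IsPar G A x y e f) (hB : IsPar G B (G.nxt f) (G.nxt e) e' f')
    (hAB : Disjoint A B) : IsPar G (A ∪ B) x y e' f' := by
  obtain ⟨tA, n, a, b, hp, a1, a2, a3, a4⟩ := hA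
  obtain ⟨tB, m, a', b', hq, b1, b2, b3, b4⟩ := hB
  have tB' := tB.symm
  have c1 := W_K2 tA tB' hAB
  have c2 := W_K2 tA tB'.symm' hAB
  have c3 := W_K2 tA.symm tB' hAB
  have c4 := W_K2 tA.symm tB'.symm' hAB
  refine ⟨isTangle_K2 tA tB' hAB, n + m, a * a' + X * (b * b'), a * b' + b * a' + b * b', hp.mul hq, ?_, ?_, ?_, ?_⟩
  · -- x → f', y → e'
    rw [c2, lp_add, lp_mul, lp_mul, a3, b4, a1, b1]
    simp only [map_add, map_mul, ev_X]
    rw [show T (n - 1) * ev b * (T (m - 1) * ev b') = (T (n - 1) * T (m - 1)) * (ev b * ev b') by ring,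
      show T n * ev a * (T m * ev a') = (T n * T m) * (ev a * ev a') by ring,
      T_mul_T (n - 1) (m - 1) (n + m + (-2)) (by ring), T_mul_T n m (n + m) (by ring), T_add (n + m) (-2)]
    ring
  · rw [c3, lp_add, lp_mul, lp_mul, a2, b2, a4, b3]
    simp only [map_add, map_mul, ev_X]
    rw [show T (n - 1) * ev b * (T (m - 1) * ev b') = (T (n - 1) * T (m - 1)) * (ev b * ev b') by ring,
      show T n * (ev a + ev b) * (T m * (ev a' + ev b')) = (T n * T m) * ((ev a + ev b) * (ev a' + ev b')) by ring,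
      T_mul_T (n - 1) (m - 1) (n + m + (-2)) (by ring), T_mul_T n m (n + m) (by ring), T_add (n + m) (-2)]
    ring
  · rw [c1, lp_add, lp_mul, lp_mul, a3, b2, a1, b3]
    simp only [map_add, map_mul]
    rw [show T (n - 1) * ev b * (T m * (ev a' + ev b')) = (T (n - 1) * T m) * (ev b * (ev a' + ev b')) by ring,
      show T n * ev a * (T (m - 1) * ev b') = (T n * T (m - 1)) * (ev a * ev b') by ring,
      T_mul_T n (m - 1) (n + m - 1) (by ring), T_mul_T (n - 1) m (n + m - 1) (by ring)]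
    ring
  · rw [c4, lp_add, lp_mul, lp_mul, a2, b4, a4, b1]
    simp only [map_add, map_mul]
    rw [show T n * (ev a + ev b) * (T (m - 1) * ev b') = (T n * T (m - 1)) * ((ev a + ev b) * ev b') by ring,
      show T (n - 1) * ev b * (T m * ev a') = (T (n - 1) * T m) * (ev b * ev a') by ring,
      T_mul_T n (m - 1) (n + m - 1) (by ring), T_mul_T (n - 1) m (n + m - 1) (by ring)]
    ring

end

end Pool.Agent.Helper29.Arb
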